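import Mathlib

/-!
# Herglotz measures on the sphere: definitions
-/

open MeasureTheory Metric Set

open scoped ComplexConjugate

namespace Pool.Agent.X297.PH

/-- `ℂ ^ n` with the Euclidean norm. -/
abbrev Cn (n : ℕ) : Type := EuclideanSpace ℂ (Fin n)

/-- The unit sphere of `ℂ ^ n`. -/
abbrev S (n : ℕ) : Type := sphere (0 : Cn n) 1

/-- The normalized surface measure on the unit sphere of `ℂ ^ n`. -/
noncomputable def surf (n : ℕ) : Measure (S n) :=
  ((Measure.addHaar : Measure (Cn n)).toSphere univ)⁻¹ •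
    (Measure.addHaar : Measure (Cn n)).toSphere

/-- The linear span `E` of the functions `u ↦ conj (u k) * u ^ α` and `u ↦ u k * conj (u ^ α)`,
where `α ≠ 0`. -/
def E (n : ℕ) : Submodule ℂ (S n → ℂ) :=
  Submodule.span ℂ {p | ∃ (k : Fin n) (α : Fin n → ℕ), α ≠ 0 ∧
    ((p = fun u => conj (u.1 k) * ∏ i, u.1 i ^ α i) ∨
      p = fun u => u.1 k * ∏ i, conj (u.1 i) ^ α i)}

/-- `μ` is a Borel probability measure on the sphere in the weak-* closure of the measures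
`p dσ`, `p ∈ E`. -/
structure IsPE {n : ℕ} (μ : Measure (S n)) : Prop where
  prob : IsProbabilityMeasure μ
  closure : ∀ (G : Finset C(S n, ℂ)) (ε : ℝ), 0 < ε → ∃ p ∈ E n, ∀ g ∈ G,
    ‖∫ u, g u ∂μ - ∫ u, g u * p u ∂surf n‖ < ε

/-- The class `𝓜` of holomorphic mappings `f` of the unit ball with `f 0 = 0`, `Df(0) = I` and
`Re ⟨f z, z⟩ > 0` for `z ≠ 0`. -/
structure IsM {n : ℕ} (f : Cn n → Cn n) : Prop where
  holo : DifferentiableOn ℂ f (ball 0 1)
  zero : f 0 = 0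
  deriv : HasFDerivAt f (ContinuousLinearMap.id ℂ (Cn n)) 0
  pos : ∀ z ∈ ball (0 : Cn n) 1, z ≠ 0 → 0 < (inner ℂ (f z) z).re

/-- The kernel `2 n (u - z) / (1 - ⟨z, u⟩) ^ (n + 1) - 2 n u - z`, where
`⟨z, u⟩ = ∑ j, z j * conj (u j)` is `inner ℂ u z`. -/
noncomputable def kernel {n : ℕ} (z u : Cn n) : Cn n :=
  (2 * (n : ℂ) / (1 - inner ℂ u z) ^ (n + 1)) • (u - z) - (2 * (n : ℂ)) • u - z

/-- `μ` is the Herglotz measure of a mapping in `𝓜`. -/
def IsPH {n : ℕ} (μ : Measure (S n)) : Prop :=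
  IsPE μ ∧ ∃ f : Cn n → Cn n, IsM f ∧ ∀ z ∈ ball (0 : Cn n) 1, f z = ∫ u, kernel z u.1 ∂μ

/-- The trace of `V` on the sphere is null for all Herglotz measures. -/
def IsNull {n : ℕ} (V : Set (Cn n)) : Prop :=
  ∀ μ : Measure (S n), IsPH μ → μ {u | u.1 ∈ V} = 0

end Pool.Agent.X297.PH
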