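import Pool.Agent.X297.PH.Unitary

/-!
# Herglotz measures on the sphere: the surface measure
-/

open MeasureTheory Metric Set Filter Topology

open scoped ComplexConjugate

namespace Pool.Agent.X297.PH

variable {n : ℕ}

/-- multiplication by a number of modulus one -/
noncomputable def sc (n : ℕ) (ζ : ℂ) (hζ : ‖ζ‖ = 1) : Cn n ≃ₗᵢ[ℂ] Cn n := diag (fun _ => ζ) fun _ => hζ

lemma sc_apply (ζ : ℂ) (hζ : ‖ζ‖ = 1) (v : Cn n) : sc n ζ hζ v = ζ • v := by
  ext i
  simp [sc, diag_apply]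

lemma integrable_vec {F : S n → Cn n} (hF : Continuous F) : Integrable F (surf n) :=
  hF.integrable_of_hasCompactSupport (HasCompactSupport.of_compactSpace _)

lemma integral_act_vec (U : Cn n ≃ₗᵢ[ℂ] Cn n) (F : S n → Cn n) :
    ∫ u, F (act U u) ∂surf n = ∫ u, F u ∂surf n :=
  (mp_act U).integral_comp (measurableEmbedding_act U) F

/-- the integral of `⟨z, u⟩ ^ k u` vanishes for `k ≠ 1` -/
lemma int_pow_vec (z : Cn n) {k : ℕ} (hk : k ≠ 1) :
    ∫ u : S n, (inner ℂ u.1 z) ^ k • u.1 ∂surf n = 0 := by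
  obtain ⟨ζ, hζ, hζ2⟩ := exists_unit hk
  have h1 := integral_act_vec (sc n ζ hζ) fun u : S n => (inner ℂ u.1 z) ^ k • u.1
  have h2 : ∀ u : S n, (inner ℂ (act (sc n ζ hζ) u).1 z) ^ k • (act (sc n ζ hζ) u).1 =
      (conj ζ ^ k * ζ) • ((inner ℂ u.1 z) ^ k • u.1) := by
    intro u
    rw [act_val, sc_apply, inner_smul_left, mul_pow, smul_smul, smul_smul]
    congr 1
    ring
  simp only [h2] at h1
  rw [integral_smul] at h1
  have h3 : ζ * conj ζ = 1 := by
    rw [Complex.mul_conj, Complex.normSq_eq_norm_sq, hζ]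
    simp
  set I := ∫ u : S n, (inner ℂ u.1 z) ^ k • u.1 ∂surf n with hI
  have h4 : (conj ζ ^ k * ζ - 1) • I = 0 := by
    rw [sub_smul, one_smul, h1, sub_self]
  rcases smul_eq_zero.1 h4 with h5 | h5
  · exfalso
    apply hζ2
    have h6 : ζ ^ k * conj ζ ^ k = 1 := by rw [← mul_pow, h3, one_pow]
    linear_combination (-ζ ^ k) * h5 + ζ * h6
  · exact h5

/-- the integral of `⟨z, u⟩ ^ k` vanishes for `k ≠ 0` -/
lemma int_pow_sc (z : Cn n) {k : ℕ} (hk : k ≠ 0) :
    ∫ u : S n, (inner ℂ u.1 z) ^ k ∂surf n = 0 := by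
  obtain ⟨ζ, hζ, hζ2⟩ := exists_unit hk
  have h1 := integral_act (sc n ζ hζ) fun u : S n => (inner ℂ u.1 z) ^ k
  have h2 : ∀ u : S n, (inner ℂ (act (sc n ζ hζ) u).1 z) ^ k =
      conj ζ ^ k * (inner ℂ u.1 z) ^ k := by
    intro u
    rw [act_val, sc_apply, inner_smul_left, mul_pow]
  simp only [h2] at h1
  rw [integral_const_mul] at h1
  have h3 : ζ * conj ζ = 1 := by
    rw [Complex.mul_conj, Complex.normSq_eq_norm_sq, hζ]
    simp
  set I := ∫ u : S n, (inner ℂ u.1 z) ^ k ∂surf n with hI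
  have h4 : (conj ζ ^ k - 1) * I = 0 := by
    linear_combination h1
  rcases mul_eq_zero.1 h4 with h5 | h5
  · exfalso
    apply hζ2
    rw [pow_zero]
    have h6 : ζ ^ k * conj ζ ^ k = 1 := by rw [← mul_pow, h3, one_pow]
    linear_combination (-ζ ^ k) * h5 + h6
  · exact h5

lemma int_norm_sq (hn : 1 ≤ n) (i : Fin n) :
    ∫ u : S n, ((‖u.1 i‖ ^ 2 : ℝ) : ℂ) ∂surf n = (n : ℂ)⁻¹ := by
  have := isProb_surf hn
  have h1 : ∀ j, ∫ u : S n, ((‖u.1 j‖ ^ 2 : ℝ) : ℂ) ∂surf n =
      ∫ u : S n, ((‖u.1 i‖ ^ 2 : ℝ) : ℂ) ∂surf n := by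
    intro j
    have h := integral_act (swp j i) (fun u : S n => ((‖u.1 i‖ ^ 2 : ℝ) : ℂ))
    rw [← h]
    congr 1
    ext u
    simp only [act_val, swp_apply, Equiv.swap_apply_right]
  have h2 : ∑ j, ∫ u : S n, ((‖u.1 j‖ ^ 2 : ℝ) : ℂ) ∂surf n = 1 := by
    rw [← integral_finsetSum]
    · have : ∀ u : S n, ∑ j, ((‖u.1 j‖ ^ 2 : ℝ) : ℂ) = 1 := by
        intro u
        rw [← Complex.ofReal_sum, sum_sq, Complex.ofReal_one]
      simp only [this]
      simp
    · intro j _
      exact integrable_of_cont (by fun_prop)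
  simp only [h1] at h2
  rw [Finset.sum_const, Finset.card_univ, Fintype.card_fin, nsmul_eq_mul] at h2
  exact eq_inv_of_mul_eq_one_right h2

/-- the integral of `⟨z, u⟩ u` is `z / n` -/
lemma int_one_vec (hn : 1 ≤ n) (z : Cn n) :
    ∫ u : S n, (inner ℂ u.1 z) • u.1 ∂surf n = (n : ℂ)⁻¹ • z := by
  have hc : Continuous fun u : S n => (inner ℂ u.1 z) • u.1 := by fun_prop
  ext i
  have h1 := (EuclideanSpace.proj i : Cn n →L[ℂ] ℂ).integral_comp_comm (integrable_vec hc)
  change _ = (∫ u : S n, (inner ℂ u.1 z) • u.1 ∂surf n) i at h1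
  rw [← h1]
  have h2 : ∀ u : S n, (EuclideanSpace.proj i : Cn n →L[ℂ] ℂ) ((inner ℂ u.1 z) • u.1) =
      ∑ j, z j * (u.1 i * conj (u.1 j)) := by
    intro u
    change ((inner ℂ u.1 z) • u.1) i = _
    rw [PiLp.smul_apply, smul_eq_mul, PiLp.inner_apply, Finset.sum_mul]
    refine Finset.sum_congr rfl fun j _ => ?_
    rw [RCLike.inner_apply]
    ring
  simp only [h2]
  rw [integral_finsetSum]
  · have h3 : ∀ j, j ≠ i → ∫ u : S n, z j * (u.1 i * conj (u.1 j)) ∂surf n = 0 := by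
      intro j hj
      rw [integral_const_mul]
      have h4 := int_mono_zero (n := n) (fun _ => 1) (fun _ _ _ => rfl) (Pi.single i 1)
        (Pi.single j 1) (by
          intro h
          have := congrFun h i
          rw [Pi.single_eq_same, Pi.single_eq_of_ne (Ne.symm hj)] at this
          exact one_ne_zero this)
      have hprod2 : ∀ (k : Fin n) (z : Fin n → ℂ),
          ∏ l, z l ^ (Pi.single k 1 : Fin n → ℕ) l = z k := by
        intro k z
        rw [Finset.prod_eq_single k]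
        · rw [Pi.single_eq_same, pow_one]
        · intro i _ hi
          rw [Pi.single_eq_of_ne hi, pow_zero]
        · intro h; exact absurd (Finset.mem_univ k) h
      simp only [hprod2, one_mul] at h4
      rw [h4, mul_zero]
    rw [Finset.sum_eq_single i (fun j _ hj => h3 j hj) (fun h => absurd (Finset.mem_univ i) h),
      integral_const_mul]
    have h5 : ∀ u : S n, u.1 i * conj (u.1 i) = ((‖u.1 i‖ ^ 2 : ℝ) : ℂ) := by
      intro u
      rw [Complex.mul_conj, Complex.normSq_eq_norm_sq]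
    simp only [h5]
    rw [int_norm_sq hn i, PiLp.smul_apply, smul_eq_mul, mul_comm]
  · intro j _
    exact integrable_of_cont (by fun_prop)

lemma inner_lt (u : S n) {z : Cn n} (hz : ‖z‖ < 1) : ‖(inner ℂ u.1 z : ℂ)‖ < 1 := by
  refine (norm_inner_le_norm _ _).trans_lt ?_
  rwa [norm_S, one_mul]

lemma inner_le (u : S n) (z : Cn n) : ‖(inner ℂ u.1 z : ℂ)‖ ≤ ‖z‖ := by
  refine (norm_inner_le_norm _ _).trans ?_
  rw [norm_S, one_mul]

lemma summable_coeff {r : ℝ} (h0 : 0 ≤ r) (h1 : r < 1) :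
    Summable fun k : ℕ => ((k + n).choose n : ℝ) * r ^ k := by
  have : ‖r‖ < 1 := by rwa [Real.norm_eq_abs, abs_of_nonneg h0]
  exact (hasSum_choose_mul_geometric_of_norm_lt_one n this).summable

lemma int_series_vec (hn : 1 ≤ n) {z : Cn n} (hz : ‖z‖ < 1) :
    ∫ u : S n, (1 / (1 - inner ℂ u.1 z) ^ (n + 1)) • u.1 ∂surf n =
      (((n : ℂ) + 1) * (n : ℂ)⁻¹) • z := by
  have := isProb_surf hn
  set F : ℕ → S n → Cn n := fun k u => (((k + n).choose n : ℂ) * (inner ℂ u.1 z) ^ k) • u.1 with hF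
  have hFc : ∀ k, Continuous (F k) := by
    intro k
    simp only [hF]
    fun_prop
  have hFn : ∀ k u, ‖F k u‖ ≤ ((k + n).choose n : ℝ) * ‖z‖ ^ k := by
    intro k u
    simp only [hF]
    rw [norm_smul, norm_S, mul_one, norm_mul, norm_pow, Complex.norm_natCast]
    gcongr
    exact inner_le u z
  have hs := summable_coeff (n := n) (norm_nonneg z) hz
  have h1 := hasSum_integral_of_summable_integral_norm (μ := surf n) (F := F)
    (fun k => integrable_vec (hFc k)) (by
      refine Summable.of_nonneg_of_le (fun k => integral_nonneg fun u => norm_nonneg _) ?_ hs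
      intro k
      calc ∫ u, ‖F k u‖ ∂surf n ≤ ∫ u, ((k + n).choose n : ℝ) * ‖z‖ ^ k ∂surf n :=
            integral_mono (integrable_vec (hFc k)).norm (integrable_const _) (hFn k)
        _ = ((k + n).choose n : ℝ) * ‖z‖ ^ k := by simp)
  have h2 : ∀ u : S n, ∑' k, F k u = (1 / (1 - inner ℂ u.1 z) ^ (n + 1)) • u.1 := by
    intro u
    exact ((hasSum_choose_mul_geometric_of_norm_lt_one n (inner_lt u hz)).smul_const u.1).tsum_eq
  simp only [h2] at h1
  have h3 : ∀ k, k ≠ 1 → ∫ u, F k u ∂surf n = 0 := by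
    intro k hk
    have h4 : ∀ u : S n, F k u = ((k + n).choose n : ℂ) • ((inner ℂ u.1 z) ^ k • u.1) := by
      intro u
      simp only [hF]
      rw [smul_smul]
    simp only [h4]
    rw [integral_smul, int_pow_vec z hk, smul_zero]
  have h5 := hasSum_single (f := fun k => ∫ u, F k u ∂surf n) 1 h3
  rw [h1.unique h5]
  have h4 : ∀ u : S n, F 1 u = ((n : ℂ) + 1) • ((inner ℂ u.1 z) • u.1) := by
    intro u
    simp only [hF]
    rw [smul_smul, pow_one]
    congr 2
    rw [Nat.add_comm, Nat.choose_succ_self_right]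
    push_cast
    ring
  simp only [h4]
  rw [integral_smul, int_one_vec hn, smul_smul]

lemma int_series_sc (hn : 1 ≤ n) {z : Cn n} (hz : ‖z‖ < 1) :
    ∫ u : S n, (1 / (1 - inner ℂ u.1 z) ^ (n + 1)) ∂surf n = 1 := by
  have := isProb_surf hn
  set F : ℕ → S n → ℂ := fun k u => ((k + n).choose n : ℂ) * (inner ℂ u.1 z) ^ k with hF
  have hFc : ∀ k, Continuous (F k) := by
    intro k
    simp only [hF]
    fun_prop
  have hFn : ∀ k u, ‖F k u‖ ≤ ((k + n).choose n : ℝ) * ‖z‖ ^ k := by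
    intro k u
    simp only [hF]
    rw [norm_mul, norm_pow, Complex.norm_natCast]
    gcongr
    exact inner_le u z
  have hs := summable_coeff (n := n) (norm_nonneg z) hz
  have h1 := hasSum_integral_of_summable_integral_norm (μ := surf n) (F := F)
    (fun k => integrable_of_cont (hFc k)) (by
      refine Summable.of_nonneg_of_le (fun k => integral_nonneg fun u => norm_nonneg _) ?_ hs
      intro k
      calc ∫ u, ‖F k u‖ ∂surf n ≤ ∫ u, ((k + n).choose n : ℝ) * ‖z‖ ^ k ∂surf n :=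
            integral_mono (integrable_of_cont (hFc k)).norm (integrable_const _) (hFn k)
        _ = ((k + n).choose n : ℝ) * ‖z‖ ^ k := by simp)
  have h2 : ∀ u : S n, ∑' k, F k u = 1 / (1 - inner ℂ u.1 z) ^ (n + 1) := by
    intro u
    exact (hasSum_choose_mul_geometric_of_norm_lt_one n (inner_lt u hz)).tsum_eq
  simp only [h2] at h1
  have h3 : ∀ k, k ≠ 0 → ∫ u, F k u ∂surf n = 0 := by
    intro k hk
    simp only [hF]
    rw [integral_const_mul, int_pow_sc z hk, mul_zero]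
  have h5 := hasSum_single (f := fun k => ∫ u, F k u ∂surf n) 0 h3
  rw [h1.unique h5]
  simp [hF]

/-- the surface measure is the Herglotz measure of the identity -/
lemma surf_isPH (hn : 1 ≤ n) : IsPH (surf n) := by
  have := isProb_surf hn
  refine ⟨⟨this, fun G ε hε => ⟨fun _ => 1, one_mem, fun g _ => ?_⟩⟩, fun z => z, ?_, ?_⟩
  · simp only [mul_one, sub_self, norm_zero]
    exact hε
  · refine ⟨differentiableOn_id, rfl, hasFDerivAt_id 0, fun z _ hz => ?_⟩
    rw [inner_self_eq_norm_sq_to_K]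
    have : 0 < ‖z‖ := norm_pos_iff.2 hz
    have h2 : (((‖z‖ : ℝ) : ℂ) ^ 2).re = ‖z‖ ^ 2 := by
      rw [← Complex.ofReal_pow, Complex.ofReal_re]
    exact h2.symm ▸ (by positivity)
  · intro z hz
    rw [mem_ball_zero_iff] at hz
    have hne : ∀ u : S n, (1 - inner ℂ u.1 z) ^ (n + 1) ≠ 0 := by
      intro u
      apply pow_ne_zero
      rw [sub_ne_zero]
      intro h
      have := inner_lt u hz
      rw [← h, norm_one] at this
      exact lt_irrefl _ this
    have hcs : Continuous fun u : S n => 1 / (1 - (inner ℂ u.1 z : ℂ)) ^ (n + 1) :=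
      continuous_const.div (by fun_prop) hne
    have hk : ∀ u : S n, kernel z u.1 =
        (2 * (n : ℂ)) • ((1 / (1 - inner ℂ u.1 z) ^ (n + 1)) • u.1) -
        (1 / (1 - inner ℂ u.1 z) ^ (n + 1)) • ((2 * (n : ℂ)) • z) -
        (2 * (n : ℂ)) • u.1 - z := by
      intro u
      rw [kernel, smul_sub, smul_smul, smul_smul, mul_one_div, mul_comm (1 / _) (2 * (n : ℂ)),
        mul_one_div]
    simp only [hk]
    have c1 : Continuous fun u : S n =>
        (2 * (n : ℂ)) • ((1 / (1 - (inner ℂ u.1 z : ℂ)) ^ (n + 1)) • u.1) := by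
      exact (hcs.smul continuous_subtype_val).const_smul (2 * (n : ℂ))
    have c2 : Continuous fun u : S n =>
        (1 / (1 - (inner ℂ u.1 z : ℂ)) ^ (n + 1)) • ((2 * (n : ℂ)) • z) :=
      hcs.smul continuous_const
    have c3 : Continuous fun u : S n => (2 * (n : ℂ)) • u.1 := by fun_prop
    have i1 : ∫ u : S n, ((2 * (n : ℂ)) • ((1 / (1 - inner ℂ u.1 z) ^ (n + 1)) • u.1) -
        (1 / (1 - inner ℂ u.1 z) ^ (n + 1)) • ((2 * (n : ℂ)) • z) -
        (2 * (n : ℂ)) • u.1 - z) ∂surf n =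
        ∫ u : S n, ((2 * (n : ℂ)) • ((1 / (1 - inner ℂ u.1 z) ^ (n + 1)) • u.1) -
        (1 / (1 - inner ℂ u.1 z) ^ (n + 1)) • ((2 * (n : ℂ)) • z) -
        (2 * (n : ℂ)) • u.1) ∂surf n - ∫ u : S n, z ∂surf n :=
      integral_sub (integrable_vec ((c1.sub c2).sub c3)) (integrable_const _)
    have i2 : ∫ u : S n, ((2 * (n : ℂ)) • ((1 / (1 - inner ℂ u.1 z) ^ (n + 1)) • u.1) -
        (1 / (1 - inner ℂ u.1 z) ^ (n + 1)) • ((2 * (n : ℂ)) • z) -
        (2 * (n : ℂ)) • u.1) ∂surf n =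
        ∫ u : S n, ((2 * (n : ℂ)) • ((1 / (1 - inner ℂ u.1 z) ^ (n + 1)) • u.1) -
        (1 / (1 - inner ℂ u.1 z) ^ (n + 1)) • ((2 * (n : ℂ)) • z)) ∂surf n -
        ∫ u : S n, (2 * (n : ℂ)) • u.1 ∂surf n :=
      integral_sub (integrable_vec (c1.sub c2)) (integrable_vec c3)
    have i3 : ∫ u : S n, ((2 * (n : ℂ)) • ((1 / (1 - inner ℂ u.1 z) ^ (n + 1)) • u.1) -
        (1 / (1 - inner ℂ u.1 z) ^ (n + 1)) • ((2 * (n : ℂ)) • z)) ∂surf n =
        ∫ u : S n, (2 * (n : ℂ)) • ((1 / (1 - inner ℂ u.1 z) ^ (n + 1)) • u.1) ∂surf n -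
        ∫ u : S n, (1 / (1 - inner ℂ u.1 z) ^ (n + 1)) • ((2 * (n : ℂ)) • z) ∂surf n :=
      integral_sub (integrable_vec c1) (integrable_vec c2)
    rw [i1, i2, i3, integral_smul, integral_smul,
      int_series_vec hn hz, integral_smul_const, int_series_sc hn hz]
    have h0 : ∫ u : S n, u.1 ∂surf n = 0 := by
      have := int_pow_vec (n := n) 0 (k := 0) (by norm_num)
      simpa using this
    rw [h0]
    simp only [integral_const, probReal_univ, smul_zero, one_smul, sub_zero]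
    have hn0 : (n : ℂ) ≠ 0 := by
      have : n ≠ 0 := by omega
      exact_mod_cast this
    rw [smul_smul, ← sub_smul]
    have h6 : 2 * (n : ℂ) * (((n : ℂ) + 1) * (n : ℂ)⁻¹) - 2 * (n : ℂ) = 2 := by
      field_simp
      ring
    rw [h6, two_smul, add_sub_cancel_right]

end Pool.Agent.X297.PH
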