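import Pool.Agent.X297.PH.Defs

/-!
# Herglotz measures on the sphere: the surface measure
-/

open MeasureTheory Metric Set

open scoped ComplexConjugate Pointwise

namespace Pool.Agent.X297.PH

variable {n : ℕ}

lemma norm_S (u : S n) : ‖u.1‖ = 1 := by
  have := u.2
  rwa [mem_sphere_zero_iff_norm] at this

/-- The action of a linear isometry on the sphere. -/
noncomputable def act (U : Cn n ≃ₗᵢ[ℂ] Cn n) (u : S n) : S n :=
  ⟨U u.1, by rw [mem_sphere_zero_iff_norm, U.norm_map, norm_S]⟩

@[simp] lemma act_val (U : Cn n ≃ₗᵢ[ℂ] Cn n) (u : S n) : (act U u).1 = U u.1 := rfl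

lemma continuous_act (U : Cn n ≃ₗᵢ[ℂ] Cn n) : Continuous (act U) :=
  (U.continuous.comp continuous_subtype_val).subtype_mk _

lemma map_addHaar (U : Cn n ≃ₗᵢ[ℂ] Cn n) :
    Measure.map U (Measure.addHaar : Measure (Cn n)) = Measure.addHaar := by
  set μ : Measure (Cn n) := Measure.addHaar with hμ
  set f : Cn n →ₗ[ℝ] Cn n := U.toLinearEquiv.toLinearMap.restrictScalars ℝ with hf
  have hdet : LinearMap.det f ≠ 0 := by
    have : IsUnit (LinearMap.det f) := by
      have h2 : f = (U.toLinearEquiv.restrictScalars ℝ).toLinearMap := rfl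
      rw [h2]
      exact (U.toLinearEquiv.restrictScalars ℝ).isUnit_det'
    exact this.ne_zero
  have h1 := Measure.map_linearMap_addHaar_eq_smul_addHaar μ hdet
  have h2 : (⇑f : Cn n → Cn n) = U := rfl
  rw [h2] at h1
  have h3 : Measure.map U μ (ball 0 1) = μ (ball 0 1) := by
    rw [Measure.map_apply U.continuous.measurable measurableSet_ball]
    congr 1
    ext x
    simp only [mem_preimage, mem_ball_zero_iff, LinearIsometryEquiv.norm_map]
  rw [h1, Measure.smul_apply, smul_eq_mul] at h3
  have h4 : μ (ball 0 1) ≠ 0 := (measure_ball_pos μ 0 one_pos).ne'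
  have h5 : μ (ball 0 1) ≠ ⊤ := measure_ball_lt_top.ne
  have h6 : ENNReal.ofReal |(LinearMap.det f)⁻¹| = 1 := by
    have := congrArg (· / μ (ball 0 1)) h3
    rwa [ENNReal.mul_div_cancel_right h4 h5, ENNReal.div_self h4 h5] at this
  rw [h1, h6, one_smul]

lemma toSphere_act (U : Cn n ≃ₗᵢ[ℂ] Cn n) :
    Measure.map (act U) (Measure.addHaar : Measure (Cn n)).toSphere =
      (Measure.addHaar : Measure (Cn n)).toSphere := by
  ext s hs
  rw [Measure.map_apply (continuous_act U).measurable hs, Measure.toSphere_apply' _ hs,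
    Measure.toSphere_apply' _ ((continuous_act U).measurable hs)]
  congr 1
  have h : Ioo (0 : ℝ) 1 • Subtype.val '' (act U ⁻¹' s) =
      U ⁻¹' (Ioo (0 : ℝ) 1 • Subtype.val '' s) := by
    ext x
    simp only [mem_preimage, mem_smul, mem_image, Subtype.exists, exists_and_right, exists_eq_right]
    constructor
    · rintro ⟨r, hr, y, ⟨hy, hys⟩, rfl⟩
      refine ⟨r, hr, U y, ⟨(act U ⟨y, hy⟩).2, hys⟩, ?_⟩
      rw [← Complex.coe_smul, ← Complex.coe_smul, map_smul]
    · rintro ⟨r, hr, y, ⟨hy, hys⟩, hxy⟩
      refine ⟨r, hr, U.symm y, ⟨?_, ?_⟩, ?_⟩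
      · rw [mem_sphere_zero_iff_norm, U.symm.norm_map]
        rwa [mem_sphere_zero_iff_norm] at hy
      · have : act U ⟨U.symm y, by
            rw [mem_sphere_zero_iff_norm, U.symm.norm_map]
            rwa [mem_sphere_zero_iff_norm] at hy⟩ = ⟨y, hy⟩ := by
          apply Subtype.ext
          simp [act]
        simpa only [this] using hys
      · apply U.injective
        rw [← hxy, ← Complex.coe_smul, ← Complex.coe_smul, map_smul, U.apply_symm_apply]
  rw [h]
  have h2 := U.toHomeomorph.toMeasurableEquiv.map_apply (μ := (Measure.addHaar : Measure (Cn n)))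
    (Ioo (0 : ℝ) 1 • Subtype.val '' s)
  have h3 : (⇑U.toHomeomorph.toMeasurableEquiv : Cn n → Cn n) = U := rfl
  rw [h3, map_addHaar] at h2
  exact h2.symm

/-- The surface measure is invariant under linear isometries. -/
lemma mp_act (U : Cn n ≃ₗᵢ[ℂ] Cn n) : MeasurePreserving (act U) (surf n) (surf n) := by
  refine ⟨(continuous_act U).measurable, ?_⟩
  rw [surf, Measure.map_smul, toSphere_act]

lemma measurableEmbedding_act (U : Cn n ≃ₗᵢ[ℂ] Cn n) : MeasurableEmbedding (act U) := by
  have h : Topology.IsClosedEmbedding (act U) := by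
    apply Continuous.isClosedEmbedding (continuous_act U)
    intro u v huv
    apply Subtype.ext
    exact U.injective (congrArg Subtype.val huv)
  exact h.measurableEmbedding

lemma integral_act (U : Cn n ≃ₗᵢ[ℂ] Cn n) (F : S n → ℂ) :
    ∫ u, F (act U u) ∂surf n = ∫ u, F u ∂surf n :=
  (mp_act U).integral_comp (measurableEmbedding_act U) F

lemma nontrivial_Cn (hn : 1 ≤ n) : Nontrivial (Cn n) := by
  refine ⟨⟨0, EuclideanSpace.single ⟨0, hn⟩ 1, fun h => ?_⟩⟩
  have := congrArg (fun v : Cn n => v ⟨0, hn⟩) h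
  simp at this

lemma isProb_surf (hn : 1 ≤ n) : IsProbabilityMeasure (surf n) := by
  have := nontrivial_Cn hn
  constructor
  rw [surf, Measure.smul_apply, smul_eq_mul]
  apply ENNReal.inv_mul_cancel
  · exact Measure.measure_univ_ne_zero.2 (Measure.toSphere_ne_zero _)
  · exact measure_ne_top _ _

lemma surf_pos (hn : 1 ≤ n) {O : Set (S n)} (hO : IsOpen O) (h : O.Nonempty) : 0 < surf n O := by
  have := nontrivial_Cn hn
  rw [surf, Measure.smul_apply, smul_eq_mul]
  refine ENNReal.mul_pos (ENNReal.inv_ne_zero.2 (measure_ne_top _ _)) ?_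
  exact (hO.measure_pos _ h).ne'

/-- Coordinate hyperplanes are null. -/
lemma surf_coord (j : Fin n) : surf n {u | u.1 j = 0} = 0 := by
  have hm : MeasurableSet {u : S n | u.1 j = 0} := by
    apply IsClosed.measurableSet
    exact isClosed_eq (by fun_prop) continuous_const
  rw [surf, Measure.smul_apply, smul_eq_mul, Measure.toSphere_apply' _ hm]
  have h : (Measure.addHaar : Measure (Cn n)) (Ioo (0 : ℝ) 1 • Subtype.val '' {u : S n | u.1 j = 0})
      = 0 := by
    let V : Submodule ℝ (Cn n) :=
      { carrier := {v | v j = 0}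
        zero_mem' := rfl
        add_mem' := by
          intro a b ha hb
          change a j + b j = 0
          rw [show a j = 0 from ha, show b j = 0 from hb, add_zero]
        smul_mem' := by
          intro c a ha
          change c • a j = 0
          rw [show a j = 0 from ha, smul_zero] }
    have hV2 : V ≠ ⊤ := by
      intro h
      have h2 : EuclideanSpace.single j (1 : ℂ) ∈ V := by rw [h]; trivial
      have h3 : (EuclideanSpace.single j (1 : ℂ) : Cn n) j = 0 := h2
      simp at h3
    refine measure_mono_null ?_ (Measure.addHaar_submodule Measure.addHaar V hV2)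
    rintro x ⟨r, hr, y, ⟨u, hu, rfl⟩, rfl⟩
    change r • u.1 ∈ V
    exact V.smul_mem r hu
  rw [h, mul_zero, mul_zero]

end Pool.Agent.X297.PH
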