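import Mathlib

/-!
# A lemma of Wiener
-/

open MeasureTheory Set Filter Topology

namespace Pool.Agent.X297.PH

lemma average_tendsto_zero {z : ℂ} (hz : ‖z‖ = 1) (h1 : z ≠ 1) :
    Tendsto (fun M : ℕ => ((M : ℝ)⁻¹) • ∑ j ∈ Finset.range M, z ^ j) atTop (𝓝 0) := by
  have h2 : z - 1 ≠ 0 := sub_ne_zero.2 h1
  have h3 : ∀ M : ℕ, ‖((M : ℝ)⁻¹) • ∑ j ∈ Finset.range M, z ^ j‖ ≤ (M : ℝ)⁻¹ * (2 / ‖z - 1‖) := by
    intro M
    rw [norm_smul, norm_inv, Real.norm_natCast, geom_sum_eq h1, norm_div]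
    gcongr
    calc ‖z ^ M - 1‖ ≤ ‖z ^ M‖ + ‖(1 : ℂ)‖ := norm_sub_le _ _
      _ = 2 := by rw [norm_pow, hz]; norm_num
  refine squeeze_zero_norm h3 ?_
  have := (tendsto_inv_atTop_zero.comp tendsto_natCast_atTop_atTop :
    Tendsto (fun M : ℕ => (M : ℝ)⁻¹) atTop (𝓝 0)).mul_const (2 / ‖z - 1‖)
  rwa [zero_mul] at this

/-- A lemma of Wiener: if the Fourier coefficients tend to zero there are no atoms. -/
lemma wiener {X : Type*} [MeasurableSpace X] {μ : Measure X} [IsFiniteMeasure μ] {χ : X → ℝ}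
    {z : X → ℂ} (hχ : Measurable χ) (hz : Measurable z) (h0 : ∀ x, 0 ≤ χ x) (h1 : ∀ x, χ x ≤ 1)
    (hz1 : ∀ x, χ x ≠ 0 → ‖z x‖ = 1)
    (hlim : Tendsto (fun j : ℕ => ∫ x, (χ x : ℂ) * z x ^ j ∂μ) atTop (𝓝 0)) :
    μ {x | χ x ≠ 0 ∧ z x = 1} = 0 := by
  have hces := hlim.cesaro_smul
  have hbd : ∀ x, ∀ j : ℕ, ‖(χ x : ℂ) * z x ^ j‖ ≤ 1 := by
    intro x j
    by_cases hx : χ x = 0
    · simp [hx]
    · rw [norm_mul, norm_pow, hz1 x hx, one_pow, mul_one, Complex.norm_real, Real.norm_eq_abs,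
        abs_of_nonneg (h0 x)]
      exact h1 x
  have hmeas : ∀ j : ℕ, Measurable fun x => (χ x : ℂ) * z x ^ j := by
    intro j
    exact (Complex.measurable_ofReal.comp hχ).mul (hz.pow_const j)
  have hint : ∀ j : ℕ, Integrable (fun x => (χ x : ℂ) * z x ^ j) μ := by
    intro j
    exact Integrable.of_bound (hmeas j).aestronglyMeasurable 1 (ae_of_all _ fun x => hbd x j)
  have hsum : ∀ M : ℕ, (M : ℝ)⁻¹ • ∑ j ∈ Finset.range M, ∫ x, (χ x : ℂ) * z x ^ j ∂μ =
      ∫ x, (M : ℝ)⁻¹ • ∑ j ∈ Finset.range M, (χ x : ℂ) * z x ^ j ∂μ := by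
    intro M
    rw [integral_smul, integral_finsetSum]
    intro j _
    exact hint j
  simp only [hsum] at hces
  set A : Set X := {x | χ x ≠ 0 ∧ z x = 1} with hA
  have hAm : MeasurableSet A :=
    ((measurableSet_eq_fun hχ measurable_const).compl).inter
      (measurableSet_eq_fun hz measurable_const)
  have hdom : Tendsto (fun M : ℕ => ∫ x, (M : ℝ)⁻¹ • ∑ j ∈ Finset.range M,
      (χ x : ℂ) * z x ^ j ∂μ) atTop (𝓝 (∫ x, A.indicator (fun x => (χ x : ℂ)) x ∂μ)) := by
    apply tendsto_integral_of_dominated_convergence (fun _ => (1 : ℝ))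
    · intro M
      have hm1 : Measurable fun x => ∑ j ∈ Finset.range M, (χ x : ℂ) * z x ^ j :=
        Finset.measurable_sum _ fun j _ => hmeas j
      have hm2 : Measurable fun x => (M : ℝ)⁻¹ • ∑ j ∈ Finset.range M, (χ x : ℂ) * z x ^ j :=
        hm1.const_smul ((M : ℝ)⁻¹)
      exact hm2.aestronglyMeasurable
    · exact integrable_const _
    · intro M
      refine ae_of_all _ fun x => ?_
      rw [norm_smul, norm_inv, Real.norm_natCast]
      rcases Nat.eq_zero_or_pos M with h | h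
      · subst h; simp
      · have h2 : ‖∑ j ∈ Finset.range M, (χ x : ℂ) * z x ^ j‖ ≤ M := by
          refine (norm_sum_le _ _).trans ?_
          refine (Finset.sum_le_sum fun j _ => hbd x j).trans ?_
          simp
        calc (M : ℝ)⁻¹ * ‖∑ j ∈ Finset.range M, (χ x : ℂ) * z x ^ j‖ ≤ (M : ℝ)⁻¹ * M := by gcongr
          _ = 1 := inv_mul_cancel₀ (by positivity)
    · refine ae_of_all _ fun x => ?_
      by_cases hx : χ x = 0
      · have : x ∉ A := fun h => h.1 hx
        rw [indicator_of_notMem this]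
        simp [hx]
      · by_cases hx1 : z x = 1
        · have : x ∈ A := ⟨hx, hx1⟩
          rw [indicator_of_mem this]
          apply tendsto_const_nhds.congr'
          filter_upwards [eventually_gt_atTop 0] with M hM
          simp only [hx1, one_pow, mul_one, Finset.sum_const, Finset.card_range, nsmul_eq_mul]
          rw [Complex.real_smul]
          push_cast
          have : (M : ℂ) ≠ 0 := by exact_mod_cast hM.ne'
          field_simp
        · have : x ∉ A := fun h => hx1 h.2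
          rw [indicator_of_notMem this]
          have h3 := (average_tendsto_zero (hz1 x hx) hx1).const_mul (χ x : ℂ)
          rw [mul_zero] at h3
          refine h3.congr fun M => ?_
          rw [← Finset.mul_sum, mul_smul_comm]
  have h4 := tendsto_nhds_unique hdom hces
  have h5 : ∫ x, A.indicator χ x ∂μ = 0 := by
    have h6 : ∀ x, A.indicator (fun x => (χ x : ℂ)) x = ((A.indicator χ x : ℝ) : ℂ) := by
      intro x
      by_cases hx : x ∈ A
      · rw [indicator_of_mem hx, indicator_of_mem hx]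
      · rw [indicator_of_notMem hx, indicator_of_notMem hx, Complex.ofReal_zero]
    simp only [h6] at h4
    have h8 : ∫ x, ((A.indicator χ x : ℝ) : ℂ) ∂μ = ((∫ x, A.indicator χ x ∂μ : ℝ) : ℂ) :=
      integral_ofReal
    rw [h8] at h4
    exact_mod_cast h4
  rw [integral_eq_zero_iff_of_nonneg] at h5
  · have h7 : ∀ᵐ x ∂μ, x ∉ A := by
      filter_upwards [h5] with x hx hxA
      rw [indicator_of_mem hxA] at hx
      exact hxA.1 hx
    rw [ae_iff] at h7
    have h9 : {a | ¬ a ∉ A} = A := by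
      ext a
      exact not_not
    rwa [h9] at h7
  · intro x
    exact indicator_nonneg (fun x _ => h0 x) x
  · refine Integrable.of_bound (hχ.indicator hAm).aestronglyMeasurable 1 (ae_of_all _ fun x => ?_)
    rw [Real.norm_eq_abs, abs_of_nonneg (indicator_nonneg (fun x _ => h0 x) x)]
    by_cases hx : x ∈ A
    · rw [indicator_of_mem hx]; exact h1 x
    · rw [indicator_of_notMem hx]; exact zero_le_one

end Pool.Agent.X297.PH
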