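import Pool.Agent.X297.PH.Sym
import Pool.Agent.X297.PH.Wiener

/-!
# Herglotz measures on the sphere: the modes of a measure
-/

open MeasureTheory Metric Set Filter Topology

open scoped ComplexConjugate

namespace Pool.Agent.X297.PH

variable {n : ℕ}

/-- The functional `h ↦ ∫ h(t) w dν`. -/
noncomputable def Lw (i₀ : Fin n) (ν : Measure (S n)) [IsFiniteMeasure ν] (w : C(S n, ℂ)) :
    C(ℝ, ℂ) →ₗ[ℂ] ℂ where
  toFun h := ∫ u : S n, h (tt i₀ u) * w u ∂ν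
  map_add' h h' := by
    have hct := continuous_tt i₀
    have h1 : Continuous fun u : S n => h (tt i₀ u) * w u := by fun_prop
    have h2 : Continuous fun u : S n => h' (tt i₀ u) * w u := by fun_prop
    rw [← integral_add (integrable_of_cont h1) (integrable_of_cont h2)]
    congr 1
    ext u
    simp only [ContinuousMap.add_apply]
    ring
  map_smul' c h := by
    simp only [ContinuousMap.smul_apply, smul_eq_mul, RingHom.id_apply]
    rw [← integral_const_mul]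
    congr 1
    ext u
    ring

lemma exists_AB (hn : 2 ≤ n) {μ : Measure (S n)} (hμ : IsPE μ) (i₀ : Fin n) (m : ℕ) :
    ∃ A B : ℂ, ∀ h : ℝ → ℂ, Continuous h →
      ∫ u : S n, h (tt i₀ u) * conj (u.1 i₀) ^ m ∂μ = A * psi i₀ m h + B * psi i₀ (m + 1) h := by
  have := hμ.prob
  have hct := continuous_tt i₀
  set w : C(S n, ℂ) := ⟨fun u => conj (u.1 i₀) ^ m, by fun_prop⟩ with hw
  set w0 : C(S n, ℂ) := ⟨fun u => (tt i₀ u : ℂ) ^ m, by fun_prop⟩ with hw0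
  set w1 : C(S n, ℂ) := ⟨fun u => (tt i₀ u : ℂ) ^ (m + 1), by fun_prop⟩ with hw1
  set L : Fin 2 → C(ℝ, ℂ) →ₗ[ℂ] ℂ := ![Lw i₀ (surf n) w0, Lw i₀ (surf n) w1] with hL
  have hK : Lw i₀ μ w ∈ Submodule.span ℂ (Set.range L) := by
    apply mem_span_of_iInf_ker_le_ker
    intro h hh
    rw [Submodule.mem_iInf] at hh
    have h0 : psi i₀ m h = 0 := hh 0
    have h1 : psi i₀ (m + 1) h = 0 := hh 1
    rw [LinearMap.mem_ker]
    change ∫ u : S n, h (tt i₀ u) * conj (u.1 i₀) ^ m ∂μ = 0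
    by_contra hne
    have hpos : 0 < ‖∫ u : S n, h (tt i₀ u) * conj (u.1 i₀) ^ m ∂μ‖ := norm_pos_iff.2 hne
    set g : C(S n, ℂ) := ⟨fun u => h (tt i₀ u) * conj (u.1 i₀) ^ m, by fun_prop⟩ with hg
    obtain ⟨p, hp, hp2⟩ := hμ.closure {g} _ hpos
    have h2 := hp2 g (Finset.mem_singleton_self g)
    have h3 : ∫ u, g u * p u ∂surf n = 0 := key hn i₀ m h h.continuous h0 h1 hp
    rw [h3, sub_zero] at h2
    exact lt_irrefl _ h2
  rw [Submodule.mem_span_range_iff_exists_fun] at hK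
  obtain ⟨c, hc⟩ := hK
  refine ⟨c 0, c 1, fun h hh => ?_⟩
  have h1 := LinearMap.congr_fun hc ⟨h, hh⟩
  rw [Fin.sum_univ_two, LinearMap.add_apply, LinearMap.smul_apply, LinearMap.smul_apply] at h1
  exact h1.symm

lemma exists_tt (hn : 2 ≤ n) (i₀ : Fin n) {τ : ℝ} (h0 : 0 ≤ τ) (h1 : τ ≤ 1) :
    ∃ u : S n, tt i₀ u = τ := by
  have : Nontrivial (Fin n) := Fin.nontrivial_iff_two_le.2 hn
  obtain ⟨j, hj⟩ := exists_ne i₀
  set v : Cn n := WithLp.toLp 2 fun i => if i = i₀ then (Real.sqrt τ : ℂ) else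
    if i = j then (Real.sqrt (1 - τ) : ℂ) else 0 with hv
  have hv1 : v i₀ = (Real.sqrt τ : ℂ) := by simp [hv]
  have hn1 : ‖v‖ = 1 := by
    rw [EuclideanSpace.norm_eq, Real.sqrt_eq_one, ← Finset.add_sum_erase _ _ (Finset.mem_univ i₀),
      ← Finset.add_sum_erase _ _ (Finset.mem_erase.2 ⟨hj, Finset.mem_univ j⟩)]
    have e1 : ∑ x ∈ (Finset.univ.erase i₀).erase j, ‖v x‖ ^ 2 = 0 := by
      apply Finset.sum_eq_zero
      intro x hx
      rw [Finset.mem_erase, Finset.mem_erase] at hx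
      simp [hv, hx.1, hx.2.1]
    rw [e1]
    have e2 : v j = (Real.sqrt (1 - τ) : ℂ) := by simp [hv, hj]
    rw [hv1, e2, Complex.norm_real, Complex.norm_real, Real.norm_eq_abs, Real.norm_eq_abs,
      sq_abs, sq_abs, Real.sq_sqrt h0, Real.sq_sqrt (by linarith)]
    ring
  refine ⟨⟨v, by rwa [mem_sphere_zero_iff_norm]⟩, ?_⟩
  unfold tt
  rw [show (⟨v, _⟩ : S n).1 = v from rfl, hv1, Complex.norm_real, Real.norm_eq_abs, sq_abs,
    Real.sq_sqrt h0]

lemma surf_Ioo (hn : 2 ≤ n) (i₀ : Fin n) {a b : ℝ} (ha : 0 ≤ a) (hab : a < b) (hb : b ≤ 1) :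
    0 < (surf n).real {u | tt i₀ u ∈ Ioo a b} := by
  rw [measureReal_def]
  refine ENNReal.toReal_pos ?_ (measure_ne_top _ _)
  refine (surf_pos (by omega) (isOpen_Ioo.preimage (continuous_tt i₀)) ?_).ne'
  obtain ⟨u, hu⟩ := exists_tt hn i₀ (τ := (a + b) / 2) (by linarith) (by linarith)
  exact ⟨u, by rw [mem_preimage, hu]; constructor <;> linarith⟩

/-- A lower bound for the modulus of an affine function on one of two intervals. -/
lemma affine_bound {δ : ℝ} (hδ : 0 < δ) (A B : ℂ) :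
    (∀ t ∈ Ioo (1 - δ) (1 - 2 * δ / 3), t ∈ Ioo (-1 : ℝ) 1 →
      δ / (δ + 12) * (‖A‖ + ‖B‖) ≤ ‖A + B * (t : ℂ)‖) ∨
    (∀ t ∈ Ioo (1 - δ / 3) 1, t ∈ Ioo (-1 : ℝ) 1 →
      δ / (δ + 12) * (‖A‖ + ‖B‖) ≤ ‖A + B * (t : ℂ)‖) := by
  by_contra hcon
  rw [not_or] at hcon
  obtain ⟨hc1, hc2⟩ := hcon
  push Not at hc1 hc2
  obtain ⟨t1, ht1, ht1', h1⟩ := hc1
  obtain ⟨t2, ht2, ht2', h2⟩ := hc2
  set s := ‖A‖ + ‖B‖ with hs
  set κ := δ / (δ + 12) with hκ
  have hd : κ * (δ + 12) = δ := by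
    rw [hκ]; field_simp
  have hκ0 : 0 < κ := by positivity
  have h3 : ‖B‖ * (t2 - t1) ≤ ‖A + B * (t2 : ℂ)‖ + ‖A + B * (t1 : ℂ)‖ := by
    calc ‖B‖ * (t2 - t1) = ‖B * ((t2 - t1 : ℝ) : ℂ)‖ := by
          rw [norm_mul, Complex.norm_real, Real.norm_eq_abs, abs_of_pos]
          linarith [ht1.2, ht2.1]
      _ = ‖(A + B * (t2 : ℂ)) - (A + B * (t1 : ℂ))‖ := by
          congr 1
          push_cast
          ring
      _ ≤ _ := norm_sub_le _ _
  have h4 : ‖B‖ * (δ / 3) ≤ ‖B‖ * (t2 - t1) := by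
    apply mul_le_mul_of_nonneg_left _ (norm_nonneg B)
    linarith [ht1.2, ht2.1]
  have h5 : ‖A‖ ≤ ‖A + B * (t2 : ℂ)‖ + ‖B‖ := by
    calc ‖A‖ = ‖(A + B * (t2 : ℂ)) - B * (t2 : ℂ)‖ := by congr 1; ring
      _ ≤ ‖A + B * (t2 : ℂ)‖ + ‖B * (t2 : ℂ)‖ := norm_sub_le _ _
      _ ≤ _ := by
        rw [norm_mul, Complex.norm_real, Real.norm_eq_abs]
        have : |t2| ≤ 1 := abs_le.2 ⟨by linarith [ht2'.1], by linarith [ht2'.2]⟩
        nlinarith [norm_nonneg B]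
  -- s < κ s (1 + 12 / δ)
  have h6 : ‖B‖ * δ < 6 * (κ * s) := by linarith
  have h7 : s * δ < δ * (κ * s) + 12 * (κ * s) := by
    have : s ≤ κ * s + 2 * ‖B‖ := by linarith
    nlinarith
  have h8 : δ * (κ * s) + 12 * (κ * s) = s * δ := by
    linear_combination s * hd
  linarith

lemma mode_bound (hn : 2 ≤ n) {μ : Measure (S n)} (hμ : IsPE μ) (i₀ : Fin n) {δ : ℝ}
    (hδ : 0 < δ) (hδ1 : δ < 1) :
    ∃ C : ℝ, ∀ (m : ℕ) (A B : ℂ), (∀ h : ℝ → ℂ, Continuous h →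
      ∫ u : S n, h (tt i₀ u) * conj (u.1 i₀) ^ m ∂μ = A * psi i₀ m h + B * psi i₀ (m + 1) h) →
      (‖A‖ + ‖B‖) * (1 - δ) ^ m ≤ C := by
  have := hμ.prob
  have hct := continuous_tt i₀
  set c1 := (surf n).real {u | tt i₀ u ∈ Ioo (1 - δ) (1 - 2 * δ / 3)} with hc1
  set c2 := (surf n).real {u | tt i₀ u ∈ Ioo (1 - δ / 3) 1} with hc2
  have hc1p : 0 < c1 := surf_Ioo hn i₀ (by linarith) (by linarith) (by linarith)
  have hc2p : 0 < c2 := surf_Ioo hn i₀ (by linarith) (by linarith) (by linarith)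
  set c := min c1 c2 with hc
  have hcp : 0 < c := lt_min hc1p hc2p
  set κ := δ / (δ + 12) with hκ
  have hκ0 : 0 < κ := by positivity
  refine ⟨1 / (κ ^ 2 * c), fun m A B hAB => ?_⟩
  set s := ‖A‖ + ‖B‖ with hs
  have hs0 : 0 ≤ s := by positivity
  have hcont : Continuous fun t : ℝ => conj (A + B * (t : ℂ)) := by fun_prop
  have h1 := hAB _ hcont
  have hle : ∀ u : S n, ‖A + B * (tt i₀ u : ℂ)‖ ≤ s := by
    intro u
    refine (norm_add_le _ _).trans ?_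
    rw [norm_mul, Complex.norm_real, Real.norm_eq_abs, abs_of_nonneg (tt_nonneg i₀ u)]
    have := tt_le i₀ u
    have := norm_nonneg B
    nlinarith
  have h2 : A * psi i₀ m (fun t : ℝ => conj (A + B * (t : ℂ))) +
      B * psi i₀ (m + 1) (fun t : ℝ => conj (A + B * (t : ℂ))) =
      ((∫ u : S n, ‖A + B * (tt i₀ u : ℂ)‖ ^ 2 * tt i₀ u ^ m ∂surf n : ℝ) : ℂ) := by
    rw [psi, psi, ← integral_const_mul, ← integral_const_mul, ← integral_add,
      ← integral_complex_ofReal]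
    · congr 1
      ext u
      push_cast
      rw [← Complex.conj_mul']
      ring
    · exact integrable_of_cont (by fun_prop)
    · exact integrable_of_cont (by fun_prop)
  rw [h2] at h1
  have h3 : ‖∫ u : S n, conj (A + B * (tt i₀ u : ℂ)) * conj (u.1 i₀) ^ m ∂μ‖ ≤ s := by
    have := norm_integral_le_of_norm_le_const (μ := μ)
      (f := fun u : S n => conj (A + B * (tt i₀ u : ℂ)) * conj (u.1 i₀) ^ m) (C := s) ?_
    · rwa [probReal_univ, mul_one] at this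
    · refine ae_of_all _ fun u => ?_
      rw [norm_mul, norm_pow, RCLike.norm_conj, RCLike.norm_conj]
      have h4 : ‖u.1 i₀‖ ≤ 1 := by
        have := norm_le u i₀
        nlinarith [norm_nonneg (u.1 i₀)]
      have h5 : ‖u.1 i₀‖ ^ m ≤ 1 := pow_le_one₀ (norm_nonneg _) h4
      calc ‖A + B * (tt i₀ u : ℂ)‖ * ‖u.1 i₀‖ ^ m ≤ s * 1 :=
            mul_le_mul (hle u) h5 (by positivity) hs0
        _ = s := mul_one s
  rw [h1, Complex.norm_real, Real.norm_eq_abs] at h3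
  have h4 : ∫ u : S n, ‖A + B * (tt i₀ u : ℂ)‖ ^ 2 * tt i₀ u ^ m ∂surf n ≤ s :=
    (le_abs_self _).trans h3
  have hint : Integrable (fun u : S n => ‖A + B * (tt i₀ u : ℂ)‖ ^ 2 * tt i₀ u ^ m) (surf n) := by
    have hcc : Continuous fun u : S n => ‖A + B * (tt i₀ u : ℂ)‖ ^ 2 * tt i₀ u ^ m := by fun_prop
    exact hcc.integrable_of_hasCompactSupport (HasCompactSupport.of_compactSpace _)
  have h5 := mul_meas_ge_le_integral_of_nonneg (μ := surf n)
    (f := fun u : S n => ‖A + B * (tt i₀ u : ℂ)‖ ^ 2 * tt i₀ u ^ m)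
    (ae_of_all _ fun u => by
      have := tt_nonneg i₀ u
      positivity) hint ((κ * s) ^ 2 * (1 - δ) ^ m)
  have h6 : c ≤ (surf n).real {x | (κ * s) ^ 2 * (1 - δ) ^ m ≤
      ‖A + B * (tt i₀ x : ℂ)‖ ^ 2 * tt i₀ x ^ m} := by
    rcases affine_bound hδ A B with hb | hb
    · refine (min_le_left c1 c2).trans (measureReal_mono ?_ (measure_ne_top _ _))
      intro u hu
      have h7 := hb _ hu ⟨by linarith [tt_nonneg i₀ u], by linarith [hu.2]⟩
      have h8 : 1 - δ ≤ tt i₀ u := hu.1.le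
      have h9 : 0 ≤ 1 - δ := by linarith
      change (κ * s) ^ 2 * (1 - δ) ^ m ≤ ‖A + B * (tt i₀ u : ℂ)‖ ^ 2 * tt i₀ u ^ m
      gcongr
    · refine (min_le_right c1 c2).trans (measureReal_mono ?_ (measure_ne_top _ _))
      intro u hu
      have h7 := hb _ hu ⟨by linarith [tt_nonneg i₀ u], by linarith [hu.2]⟩
      have h8 : 1 - δ ≤ tt i₀ u := by linarith [hu.1]
      have h9 : 0 ≤ 1 - δ := by linarith
      change (κ * s) ^ 2 * (1 - δ) ^ m ≤ ‖A + B * (tt i₀ u : ℂ)‖ ^ 2 * tt i₀ u ^ m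
      gcongr
  have h9 : 0 ≤ (1 - δ) ^ m := pow_nonneg (by linarith) m
  have h7 : (κ * s) ^ 2 * (1 - δ) ^ m * c ≤ s := by
    refine (mul_le_mul_of_nonneg_left h6 (by positivity)).trans (h5.trans h4)
  rw [le_div_iff₀ (by positivity)]
  rcases hs0.eq_or_lt with h | h
  · rw [← h]; simp
  · have h8 : s * (s * (1 - δ) ^ m * (κ ^ 2 * c)) ≤ s * 1 := by
      calc s * (s * (1 - δ) ^ m * (κ ^ 2 * c)) = (κ * s) ^ 2 * (1 - δ) ^ m * c := by ring
        _ ≤ s := h7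
        _ = s * 1 := (mul_one s).symm
    exact le_of_mul_le_mul_left h8 h

end Pool.Agent.X297.PH
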