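import Pool.Agent.X297.PH.Modes

/-!
# Herglotz measures on the sphere: coordinate real hyperplanes are null
-/

open MeasureTheory Metric Set Filter Topology

open scoped ComplexConjugate

namespace Pool.Agent.X297.PH

variable {n : ℕ}

/-- cut-off function -/
noncomputable def cut (ε t : ℝ) : ℝ := min 1 (max 0 ((t - ε) * (1 - ε - t)))

lemma cut_nonneg (ε t : ℝ) : 0 ≤ cut ε t := le_min zero_le_one (le_max_left _ _)

lemma cut_le (ε t : ℝ) : cut ε t ≤ 1 := min_le_left _ _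

lemma continuous_cut (ε : ℝ) : Continuous (cut ε) := by
  unfold cut
  fun_prop

lemma cut_ne {ε t : ℝ} (h0 : ε < t) (h1 : t < 1 - ε) : cut ε t ≠ 0 := by
  have h2 : 0 < (t - ε) * (1 - ε - t) := mul_pos (by linarith) (by linarith)
  exact (lt_min one_pos (lt_max_of_lt_right h2)).ne'

lemma of_cut_ne {ε t : ℝ} (hε : ε < 1 / 2) (h : cut ε t ≠ 0) : ε < t ∧ t < 1 - ε := by
  by_contra hcon
  apply h
  have h2 : (t - ε) * (1 - ε - t) ≤ 0 := by
    rw [not_and_or, not_lt, not_lt] at hcon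
    rcases hcon with h3 | h3
    · exact mul_nonpos_of_nonpos_of_nonneg (by linarith) (by linarith)
    · exact mul_nonpos_of_nonneg_of_nonpos (by linarith) (by linarith)
  rw [cut, max_eq_left h2]
  exact min_eq_right zero_le_one

/-- test functions -/
noncomputable def hj (ε : ℝ) (j : ℕ) (t : ℝ) : ℂ :=
  (cut ε t : ℂ) / ((max t ε : ℝ) : ℂ) ^ j

lemma continuous_hj {ε : ℝ} (hε : 0 < ε) (j : ℕ) : Continuous (hj ε j) := by
  unfold hj
  have h1 := continuous_cut ε
  have h2 : ∀ t : ℝ, ((max t ε : ℝ) : ℂ) ^ j ≠ 0 := by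
    intro t
    have : (max t ε : ℝ) ≠ 0 := (lt_max_of_lt_right hε).ne'
    exact pow_ne_zero _ (by exact_mod_cast this)
  exact (Complex.continuous_ofReal.comp h1).div (by fun_prop) h2

lemma psi_hj_le (hn : 1 ≤ n) (i₀ : Fin n) {ε : ℝ} (hε : 0 < ε) (hε2 : ε < 1 / 2) (j : ℕ) {m : ℕ}
    (hm : 2 * j ≤ m) : ‖psi i₀ m (hj ε j)‖ ≤ (1 - ε) ^ j := by
  have := isProb_surf hn
  have := norm_integral_le_of_norm_le_const (μ := surf n)
    (f := fun u : S n => hj ε j (tt i₀ u) * (tt i₀ u : ℂ) ^ m) (C := (1 - ε) ^ j) ?_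
  · rwa [probReal_univ, mul_one] at this
  · refine ae_of_all _ fun u => ?_
    by_cases hc : cut ε (tt i₀ u) = 0
    · rw [hj, hc, Complex.ofReal_zero, zero_div, zero_mul, norm_zero]
      exact pow_nonneg (by linarith) _
    · obtain ⟨h1, h2⟩ := of_cut_ne hε2 hc
      have h3 : 0 < tt i₀ u := hε.trans h1
      obtain ⟨k, rfl⟩ := Nat.exists_eq_add_of_le hm
      rw [hj, max_eq_left h1.le, norm_mul, norm_div, norm_pow, norm_pow, Complex.norm_real,
        Complex.norm_real, Real.norm_eq_abs, Real.norm_eq_abs, abs_of_pos h3,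
        abs_of_nonneg (cut_nonneg _ _)]
      have h4 : cut ε (tt i₀ u) / tt i₀ u ^ j * tt i₀ u ^ (2 * j + k) =
          cut ε (tt i₀ u) * tt i₀ u ^ k * tt i₀ u ^ j := by
        field_simp
        ring
      rw [h4]
      have h5 : tt i₀ u ^ k ≤ 1 := pow_le_one₀ h3.le (tt_le i₀ u)
      have h6 := cut_le ε (tt i₀ u)
      have h7 := cut_nonneg ε (tt i₀ u)
      calc cut ε (tt i₀ u) * tt i₀ u ^ k * tt i₀ u ^ j ≤ 1 * 1 * (1 - ε) ^ j := by gcongr
        _ = (1 - ε) ^ j := by ring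

lemma null_mid (hn : 2 ≤ n) {μ : Measure (S n)} (hμ : IsPE μ) (i₀ : Fin n) {ε : ℝ} (hε : 0 < ε)
    (hε2 : ε < 1 / 2) :
    μ {u | ε < tt i₀ u ∧ tt i₀ u < 1 - ε ∧ (u.1 i₀).re = 0} = 0 := by
  have := hμ.prob
  have hct := continuous_tt i₀
  choose A B hAB using fun m => exists_AB hn hμ i₀ m
  obtain ⟨C, hC⟩ := mode_bound hn hμ i₀ (δ := ε / 3) (by linarith) (by linarith)
  have hC' := fun m => hC m (A m) (B m) (hAB m)
  set r : ℝ := (1 - ε) / (1 - ε / 3) ^ 2 with hr
  have hd : 0 < (1 - ε / 3) ^ 2 := by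
    have : 0 < 1 - ε / 3 := by linarith
    positivity
  have hr0 : 0 ≤ r := div_nonneg (by linarith) hd.le
  have hr1 : r < 1 := by
    rw [hr, div_lt_one hd]
    nlinarith
  have hco : Measurable fun u : S n => u.1 i₀ := by
    have : Continuous fun u : S n => u.1 i₀ := by fun_prop
    exact this.measurable
  have hco2 : Measurable fun u : S n => conj (u.1 i₀) := by
    have : Continuous fun u : S n => conj (u.1 i₀) := by fun_prop
    exact this.measurable
  have hw := wiener (μ := μ) (χ := fun u => cut ε (tt i₀ u))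
    (z := fun u => -(conj (u.1 i₀) / u.1 i₀))
    ((continuous_cut ε).comp hct).measurable (hco2.div hco).neg
    (fun u => cut_nonneg _ _) (fun u => cut_le _ _) ?_ ?_
  · refine measure_mono_null ?_ hw
    rintro u ⟨h1, h2, h3⟩
    refine ⟨cut_ne h1 h2, ?_⟩
    have h4 : conj (u.1 i₀) = -u.1 i₀ := by
      apply Complex.ext
      · simp [h3]
      · simp
    have h5 : u.1 i₀ ≠ 0 := by
      intro h
      have : tt i₀ u = 0 := by simp [tt, h]
      linarith
    rw [h4, neg_div, neg_neg, div_self h5]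
  · intro u hu
    obtain ⟨h1, h2⟩ := of_cut_ne hε2 hu
    have h5 : u.1 i₀ ≠ 0 := by
      intro h
      have : tt i₀ u = 0 := by simp [tt, h]
      linarith
    rw [norm_neg, norm_div, RCLike.norm_conj, div_self (norm_ne_zero_iff.2 h5)]
  · have hval : ∀ j : ℕ, ∫ u : S n, ((cut ε (tt i₀ u) : ℝ) : ℂ) *
        (-(conj (u.1 i₀) / u.1 i₀)) ^ j ∂μ =
        (-1) ^ j * (A (2 * j) * psi i₀ (2 * j) (hj ε j) + B (2 * j) * psi i₀ (2 * j + 1) (hj ε j)) := by
      intro j
      rw [← hAB (2 * j) (hj ε j) (continuous_hj hε j), ← integral_const_mul]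
      congr 1
      ext u
      by_cases hc : cut ε (tt i₀ u) = 0
      · simp [hj, hc]
      · obtain ⟨h1, h2⟩ := of_cut_ne hε2 hc
        have h5 : u.1 i₀ ≠ 0 := by
          intro h
          have : tt i₀ u = 0 := by simp [tt, h]
          linarith
        have h6 : conj (u.1 i₀) ≠ 0 := by
          rwa [Ne, map_eq_zero]
        have h7 : ((tt i₀ u : ℝ) : ℂ) = u.1 i₀ * conj (u.1 i₀) := by
          rw [Complex.mul_conj, Complex.normSq_eq_norm_sq, tt]
        rw [hj, max_eq_left h1.le, h7, neg_pow, div_pow, mul_pow, pow_mul, sq, mul_pow]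
        have h8 : u.1 i₀ ^ j ≠ 0 := pow_ne_zero _ h5
        have h9 : conj (u.1 i₀) ^ j ≠ 0 := pow_ne_zero _ h6
        field_simp
    have hbd : ∀ j : ℕ, ‖∫ u : S n, ((cut ε (tt i₀ u) : ℝ) : ℂ) *
        (-(conj (u.1 i₀) / u.1 i₀)) ^ j ∂μ‖ ≤ C * r ^ j := by
      intro j
      rw [hval j, norm_mul, norm_pow, norm_neg, norm_one, one_pow, one_mul]
      have h1 := psi_hj_le (by omega) i₀ hε hε2 j (m := 2 * j) le_rfl
      have h2 := psi_hj_le (by omega) i₀ hε hε2 j (m := 2 * j + 1) (by omega)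
      have h3 : ‖A (2 * j) * psi i₀ (2 * j) (hj ε j) + B (2 * j) * psi i₀ (2 * j + 1) (hj ε j)‖ ≤
          (‖A (2 * j)‖ + ‖B (2 * j)‖) * (1 - ε) ^ j := by
        refine (norm_add_le _ _).trans ?_
        rw [norm_mul, norm_mul, add_mul]
        gcongr
      refine h3.trans ?_
      have h4 := hC' (2 * j)
      have h5 : 0 < (1 - ε / 3) ^ (2 * j) := by
        rw [pow_mul]
        positivity
      rw [hr, div_pow, ← pow_mul, mul_div_assoc', le_div_iff₀ h5]
      have h6 : 0 ≤ (1 - ε) ^ j := pow_nonneg (by linarith) _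
      calc (‖A (2 * j)‖ + ‖B (2 * j)‖) * (1 - ε) ^ j * (1 - ε / 3) ^ (2 * j) =
            ((‖A (2 * j)‖ + ‖B (2 * j)‖) * (1 - ε / 3) ^ (2 * j)) * (1 - ε) ^ j := by ring
        _ ≤ C * (1 - ε) ^ j := by gcongr
    refine squeeze_zero_norm hbd ?_
    have := (tendsto_pow_atTop_nhds_zero_of_lt_one hr0 hr1).const_mul C
    rwa [mul_zero] at this

lemma lim_pow {ν : Measure (S n)} [IsFiniteMeasure ν] {T : S n → ℝ} (hT : Continuous T)
    (h0 : ∀ u, 0 ≤ T u) (h1 : ∀ u, T u ≤ 1) {w : S n → ℂ} (hw : Continuous w) :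
    Tendsto (fun k : ℕ => ∫ u, (T u : ℂ) ^ k * w u ∂ν) atTop
      (𝓝 (∫ u, {u | T u = 1}.indicator w u ∂ν)) := by
  apply tendsto_integral_of_dominated_convergence (fun u => ‖w u‖)
  · intro k
    have : Continuous fun u => (T u : ℂ) ^ k * w u := by fun_prop
    exact this.aestronglyMeasurable
  · exact (integrable_of_cont hw).norm
  · intro k
    refine ae_of_all _ fun u => ?_
    rw [norm_mul, norm_pow, Complex.norm_real, Real.norm_eq_abs, abs_of_nonneg (h0 u)]
    have : T u ^ k ≤ 1 := pow_le_one₀ (h0 u) (h1 u)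
    calc T u ^ k * ‖w u‖ ≤ 1 * ‖w u‖ := by gcongr
      _ = ‖w u‖ := one_mul _
  · refine ae_of_all _ fun u => ?_
    by_cases hu : T u = 1
    · have hu' : u ∈ {u | T u = 1} := hu
      rw [indicator_of_mem hu']
      simp [hu]
    · have hu' : u ∉ {u | T u = 1} := hu
      rw [indicator_of_notMem hu']
      have h2 : T u < 1 := lt_of_le_of_ne (h1 u) hu
      have h3 : Tendsto (fun k : ℕ => (T u : ℂ) ^ k) atTop (𝓝 0) := by
        apply tendsto_pow_atTop_nhds_zero_of_norm_lt_one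
        rwa [Complex.norm_real, Real.norm_eq_abs, abs_of_nonneg (h0 u)]
      have h4 := h3.mul_const (w u)
      rwa [zero_mul] at h4

lemma null_end (hn : 2 ≤ n) {μ : Measure (S n)} (hμ : IsPE μ) (i₀ : Fin n) {g : ℝ → ℝ}
    (hg : Continuous g) (h0 : ∀ t ∈ Icc (0 : ℝ) 1, g t ∈ Icc (0 : ℝ) 1)
    (hs : surf n {u | g (tt i₀ u) = 1} = 0) : μ {u | g (tt i₀ u) = 1} = 0 := by
  have := hμ.prob
  have hct := continuous_tt i₀
  obtain ⟨A, B, hAB⟩ := exists_AB hn hμ i₀ 0
  have hT : Continuous fun u : S n => g (tt i₀ u) := hg.comp hct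
  have hI : ∀ u : S n, g (tt i₀ u) ∈ Icc (0 : ℝ) 1 := fun u =>
    h0 _ ⟨tt_nonneg i₀ u, tt_le i₀ u⟩
  have hz : ∀ w : S n → ℂ, ∫ u, {u : S n | g (tt i₀ u) = 1}.indicator w u ∂surf n = 0 := by
    intro w
    apply integral_eq_zero_of_ae
    have : ∀ᵐ u ∂surf n, u ∉ {u : S n | g (tt i₀ u) = 1} := measure_eq_zero_iff_ae_notMem.1 hs
    filter_upwards [this] with u hu
    have hu' : u ∉ {u : S n | g (tt i₀ u) = 1} := hu
    rw [indicator_of_notMem hu']
    rfl
  have l0 := lim_pow (ν := surf n) hT (fun u => (hI u).1) (fun u => (hI u).2)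
    (w := fun u => (tt i₀ u : ℂ) ^ 0) (by fun_prop)
  have l1 := lim_pow (ν := surf n) hT (fun u => (hI u).1) (fun u => (hI u).2)
    (w := fun u => (tt i₀ u : ℂ) ^ 1) (by fun_prop)
  rw [hz] at l0 l1
  have l2 := lim_pow (ν := μ) hT (fun u => (hI u).1) (fun u => (hI u).2)
    (w := fun u => conj (u.1 i₀) ^ 0) (by fun_prop)
  have l3 := (l0.const_mul A).add (l1.const_mul B)
  rw [mul_zero, mul_zero, add_zero] at l3
  have h2 : ∀ k : ℕ, ∫ u : S n, (g (tt i₀ u) : ℂ) ^ k * conj (u.1 i₀) ^ 0 ∂μ =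
      A * ∫ u : S n, (g (tt i₀ u) : ℂ) ^ k * (tt i₀ u : ℂ) ^ 0 ∂surf n +
      B * ∫ u : S n, (g (tt i₀ u) : ℂ) ^ k * (tt i₀ u : ℂ) ^ 1 ∂surf n := fun k =>
    hAB (fun t => (g t : ℂ) ^ k) (by fun_prop)
  simp only [h2] at l2
  have h3 := tendsto_nhds_unique l2 l3
  have hm : MeasurableSet {u : S n | g (tt i₀ u) = 1} :=
    (isClosed_eq hT continuous_const).measurableSet
  rw [integral_indicator hm] at h3
  simp only [pow_zero, setIntegral_const] at h3
  have h4 : μ.real {u : S n | g (tt i₀ u) = 1} = 0 := by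
    rw [Complex.real_smul, mul_one] at h3
    exact_mod_cast h3
  rwa [measureReal_eq_zero_iff] at h4

/-- **Coordinate real hyperplanes are null.** -/
lemma null_re (hn : 2 ≤ n) {μ : Measure (S n)} (hμ : IsPE μ) (i₀ : Fin n) :
    μ {u | (u.1 i₀).re = 0} = 0 := by
  have h1 : μ {u | 1 - tt i₀ u = 1} = 0 := by
    apply null_end hn hμ i₀ (g := fun t => 1 - t) (by fun_prop)
    · intro t ht
      exact ⟨by linarith [ht.2], by linarith [ht.1]⟩
    · refine measure_mono_null ?_ (surf_coord i₀)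
      intro u hu
      have h2 : tt i₀ u = 0 := by
        have : 1 - tt i₀ u = 1 := hu
        linarith
      have h3 : ‖u.1 i₀‖ = 0 := by
        rw [tt] at h2
        exact pow_eq_zero_iff (two_ne_zero) |>.1 h2
      exact norm_eq_zero.1 h3
  have h2 : μ {u | tt i₀ u = 1} = 0 := by
    apply null_end hn hμ i₀ (g := fun t => t) (by fun_prop)
    · intro t ht
      exact ht
    · have : Nontrivial (Fin n) := Fin.nontrivial_iff_two_le.2 hn
      obtain ⟨j, hj⟩ := exists_ne i₀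
      refine measure_mono_null ?_ (surf_coord j)
      intro u hu
      have h3 : tt i₀ u = 1 := hu
      have h4 := sum_sq u
      rw [← Finset.add_sum_erase _ _ (Finset.mem_univ i₀)] at h4
      have h5 : ∑ x ∈ Finset.univ.erase i₀, ‖u.1 x‖ ^ 2 = 0 := by
        rw [tt] at h3
        linarith
      rw [Finset.sum_eq_zero_iff_of_nonneg (fun i _ => by positivity)] at h5
      have h6 := h5 j (Finset.mem_erase.2 ⟨hj, Finset.mem_univ j⟩)
      exact norm_eq_zero.1 (pow_eq_zero_iff two_ne_zero |>.1 h6)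
  have h3 : μ (⋃ k : ℕ, {u | 1 / ((k : ℝ) + 3) < tt i₀ u ∧ tt i₀ u < 1 - 1 / ((k : ℝ) + 3) ∧
      (u.1 i₀).re = 0}) = 0 := by
    rw [measure_iUnion_null_iff]
    intro k
    have hk : (0 : ℝ) ≤ k := Nat.cast_nonneg k
    apply null_mid hn hμ i₀
    · positivity
    · rw [div_lt_div_iff₀ (by positivity) (by norm_num)]
      linarith
  refine measure_mono_null ?_ (measure_union_null (measure_union_null h1 h2) h3)
  intro u hu
  by_cases hu0 : tt i₀ u = 0
  · left; left
    change 1 - tt i₀ u = 1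
    linarith
  by_cases hu1 : tt i₀ u = 1
  · left; right
    exact hu1
  right
  have h4 : 0 < tt i₀ u := lt_of_le_of_ne (tt_nonneg i₀ u) (Ne.symm hu0)
  have h5 : 0 < 1 - tt i₀ u := by
    have := lt_of_le_of_ne (tt_le i₀ u) hu1
    linarith
  obtain ⟨k, hk⟩ := exists_nat_one_div_lt (lt_min h4 h5)
  rw [mem_iUnion]
  have h6 : 1 / ((k : ℝ) + 3) ≤ 1 / ((k : ℝ) + 1) := by
    apply one_div_le_one_div_of_le <;> [positivity; linarith]
  refine ⟨k, ?_, ?_, hu⟩
  · exact h6.trans_lt (hk.trans_le (min_le_left _ _))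
  · have := h6.trans_lt (hk.trans_le (min_le_right _ _))
    linarith

end Pool.Agent.X297.PH
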