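import Pool.Agent.X297.PH.Meas

/-!
# Herglotz measures on the sphere: symmetries and integrals of monomials
-/

open MeasureTheory Metric Set

open scoped ComplexConjugate

namespace Pool.Agent.X297.PH

variable {n : ℕ}

lemma sum_sq (u : S n) : ∑ i, ‖u.1 i‖ ^ 2 = 1 := by
  have h := norm_S u
  rw [EuclideanSpace.norm_eq, Real.sqrt_eq_one] at h
  exact h

lemma norm_le (u : S n) (i : Fin n) : ‖u.1 i‖ ^ 2 ≤ 1 := by
  exact (Finset.single_le_sum (f := fun i => ‖u.1 i‖ ^ 2) (fun i _ => by positivity)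
    (Finset.mem_univ i)).trans_eq (sum_sq u)

/-- multiplication of the coordinates by numbers of modulus one -/
noncomputable def diag (c : Fin n → ℂ) (hc : ∀ i, ‖c i‖ = 1) : Cn n ≃ₗᵢ[ℂ] Cn n where
  toFun v := WithLp.toLp 2 fun i => c i * v i
  invFun v := WithLp.toLp 2 fun i => (c i)⁻¹ * v i
  left_inv v := by
    ext i
    have h : c i ≠ 0 := fun h => by simpa [h] using hc i
    simp [h]
  right_inv v := by
    ext i
    have h : c i ≠ 0 := fun h => by simpa [h] using hc i
    simp [h]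
  map_add' v w := by
    ext i
    simp [mul_add]
  map_smul' r v := by
    ext i
    simp
    ring
  norm_map' v := by
    rw [EuclideanSpace.norm_eq, EuclideanSpace.norm_eq]
    simp [hc]

lemma diag_apply (c : Fin n → ℂ) (hc : ∀ i, ‖c i‖ = 1) (v : Cn n) (i : Fin n) :
    diag c hc v i = c i * v i := rfl

lemma exists_unit {a b : ℕ} (h : a ≠ b) : ∃ ζ : ℂ, ‖ζ‖ = 1 ∧ ζ ^ a ≠ ζ ^ b := by
  have hne : ((a : ℂ) - b) ≠ 0 := by
    rw [sub_ne_zero]
    exact_mod_cast h
  refine ⟨Complex.exp (((Real.pi / ((a : ℝ) - b) : ℝ) : ℂ) * Complex.I),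
    Complex.norm_exp_ofReal_mul_I _, fun h2 => ?_⟩
  rw [← Complex.exp_nat_mul, ← Complex.exp_nat_mul] at h2
  have h3 : (a : ℂ) * (((Real.pi / ((a : ℝ) - b) : ℝ) : ℂ) * Complex.I) =
      (b : ℂ) * (((Real.pi / ((a : ℝ) - b) : ℝ) : ℂ) * Complex.I) + Real.pi * Complex.I := by
    push_cast
    field_simp
    ring
  rw [h3, Complex.exp_add, Complex.exp_pi_mul_I] at h2
  have h4 : Complex.exp ((b : ℂ) * (((Real.pi / ((a : ℝ) - b) : ℝ) : ℂ) * Complex.I)) ≠ 0 :=
    Complex.exp_ne_zero _
  apply h4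
  linear_combination (-1 / 2 : ℂ) * h2

/-- Integrals of monomials vanish. -/
lemma int_mono_zero (H : S n → ℂ)
    (hH : ∀ (c : Fin n → ℂ) (hc : ∀ i, ‖c i‖ = 1) (u : S n), H (act (diag c hc) u) = H u)
    (a b : Fin n → ℕ) (hab : a ≠ b) :
    ∫ u : S n, H u * (∏ i, u.1 i ^ a i) * (∏ i, conj (u.1 i) ^ b i) ∂surf n = 0 := by
  obtain ⟨j, hj⟩ := Function.ne_iff.1 hab
  obtain ⟨ζ, hζ, hζ2⟩ := exists_unit hj
  set c : Fin n → ℂ := fun i => if i = j then ζ else 1 with hcdef
  have hc : ∀ i, ‖c i‖ = 1 := by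
    intro i
    simp only [hcdef]
    split_ifs
    · exact hζ
    · simp
  have h1 := integral_act (diag c hc)
    (fun u : S n => H u * (∏ i, u.1 i ^ a i) * (∏ i, conj (u.1 i) ^ b i))
  have h2 : ∀ u : S n, H (act (diag c hc) u) * (∏ i, (act (diag c hc) u).1 i ^ a i) *
      (∏ i, conj ((act (diag c hc) u).1 i) ^ b i) =
      (ζ ^ a j * conj ζ ^ b j) *
        (H u * (∏ i, u.1 i ^ a i) * (∏ i, conj (u.1 i) ^ b i)) := by
    intro u
    simp only [act_val, diag_apply, mul_pow, Finset.prod_mul_distrib, map_mul, hH]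
    have e1 : ∏ i, c i ^ a i = ζ ^ a j := by
      rw [Finset.prod_eq_single j]
      · simp [hcdef]
      · intro i _ hi; simp [hcdef, hi]
      · intro h; exact absurd (Finset.mem_univ j) h
    have e2 : ∏ i, conj (c i) ^ b i = conj ζ ^ b j := by
      rw [Finset.prod_eq_single j]
      · simp [hcdef]
      · intro i _ hi; simp [hcdef, hi]
      · intro h; exact absurd (Finset.mem_univ j) h
    rw [e1, e2]
    ring
  simp only [h2] at h1
  rw [integral_const_mul] at h1
  set I := ∫ u : S n, H u * (∏ i, u.1 i ^ a i) * (∏ i, conj (u.1 i) ^ b i) ∂surf n with hI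
  have h3 : ζ * conj ζ = 1 := by
    rw [Complex.mul_conj, Complex.normSq_eq_norm_sq, hζ]
    simp
  have h4 : (ζ ^ a j * conj ζ ^ b j - 1) * I = 0 := by
    linear_combination h1
  rcases mul_eq_zero.1 h4 with h5 | h5
  · exfalso
    apply hζ2
    have h6 : ζ ^ b j * conj ζ ^ b j = 1 := by rw [← mul_pow, h3, one_pow]
    have h7 : ζ ^ a j * (ζ ^ b j * conj ζ ^ b j) = ζ ^ b j := by
      linear_combination ζ ^ b j * h5
    rwa [h6, mul_one] at h7
  · exact h5

/-- the square of the modulus of the coordinate -/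
noncomputable def tt (i₀ : Fin n) (u : S n) : ℝ := ‖u.1 i₀‖ ^ 2

lemma continuous_tt (i₀ : Fin n) : Continuous (tt i₀) := by
  unfold tt
  fun_prop

lemma tt_nonneg (i₀ : Fin n) (u : S n) : 0 ≤ tt i₀ u := by unfold tt; positivity

lemma tt_le (i₀ : Fin n) (u : S n) : tt i₀ u ≤ 1 := norm_le u i₀

lemma integrable_of_cont {μ : Measure (S n)} [IsFiniteMeasure μ] {F : S n → ℂ}
    (hF : Continuous F) : Integrable F μ := by
  have h : HasCompactSupport F := HasCompactSupport.of_compactSpace F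
  exact hF.integrable_of_hasCompactSupport h

instance finite_surf : IsFiniteMeasure (surf n) := by
  rcases Nat.eq_zero_or_pos n with h | h
  · subst h
    constructor
    have : IsEmpty (S 0) := by
      constructor
      intro u
      have := norm_S u
      have h2 : u.1 = 0 := Subsingleton.elim _ _
      rw [h2] at this
      simp at this
    rw [Measure.measure_univ_eq_zero.2 (Measure.eq_zero_of_isEmpty _)]
    exact ENNReal.zero_lt_top
  · have := isProb_surf h
    infer_instance

/-- a transposition of coordinates -/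
noncomputable def swp (j k : Fin n) : Cn n ≃ₗᵢ[ℂ] Cn n :=
  LinearIsometryEquiv.piLpCongrLeft 2 ℂ ℂ (Equiv.swap j k)

lemma swp_apply (j k : Fin n) (v : Cn n) (i : Fin n) : swp j k v i = v (Equiv.swap j k i) := by
  simp [swp, LinearIsometryEquiv.piLpCongrLeft_apply, Equiv.piCongrLeft'_apply]

lemma int_sq_eq (i₀ : Fin n) (G : ℝ → ℂ) {j k : Fin n} (hj : j ≠ i₀) (hk : k ≠ i₀) :
    ∫ u : S n, G (tt i₀ u) * ((‖u.1 j‖ ^ 2 : ℝ) : ℂ) ∂surf n =
      ∫ u : S n, G (tt i₀ u) * ((‖u.1 k‖ ^ 2 : ℝ) : ℂ) ∂surf n := by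
  have h := integral_act (swp j k) (fun u : S n => G (tt i₀ u) * ((‖u.1 k‖ ^ 2 : ℝ) : ℂ))
  rw [← h]
  congr 1
  ext u
  simp only [tt, act_val, swp_apply, Equiv.swap_apply_right,
    Equiv.swap_apply_of_ne_of_ne hj.symm hk.symm]

lemma int_sq (i₀ : Fin n) (G : ℝ → ℂ) (hG : Continuous G) {k : Fin n} (hk : k ≠ i₀) :
    ((n : ℂ) - 1) * ∫ u : S n, G (tt i₀ u) * ((‖u.1 k‖ ^ 2 : ℝ) : ℂ) ∂surf n =
      ∫ u : S n, G (tt i₀ u) ∂surf n - ∫ u : S n, G (tt i₀ u) * (tt i₀ u : ℂ) ∂surf n := by
  have hc : ∀ j : Fin n, Continuous fun u : S n => G (tt i₀ u) * ((‖u.1 j‖ ^ 2 : ℝ) : ℂ) := by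
    intro j
    have := continuous_tt i₀
    fun_prop
  have h1 : ∫ u : S n, G (tt i₀ u) ∂surf n =
      ∑ j, ∫ u : S n, G (tt i₀ u) * ((‖u.1 j‖ ^ 2 : ℝ) : ℂ) ∂surf n := by
    rw [← integral_finsetSum]
    · congr 1
      ext u
      rw [← Finset.mul_sum, ← Complex.ofReal_sum, sum_sq]
      simp
    · intro j _
      exact integrable_of_cont (hc j)
  rw [h1, ← Finset.add_sum_erase _ _ (Finset.mem_univ i₀)]
  have h2 : ∀ j ∈ Finset.univ.erase i₀, ∫ u : S n, G (tt i₀ u) * ((‖u.1 j‖ ^ 2 : ℝ) : ℂ) ∂surf n =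
      ∫ u : S n, G (tt i₀ u) * ((‖u.1 k‖ ^ 2 : ℝ) : ℂ) ∂surf n := by
    intro j hj
    exact int_sq_eq i₀ G (Finset.ne_of_mem_erase hj) hk
  rw [Finset.sum_congr rfl h2, Finset.sum_const, Finset.card_erase_of_mem (Finset.mem_univ _),
    Finset.card_univ, Fintype.card_fin, nsmul_eq_mul]
  have hn : 1 ≤ n := by
    have := i₀.2
    omega
  rw [Nat.cast_sub hn]
  simp only [tt, Nat.cast_one]
  ring

lemma continuous_of_mem {p : S n → ℂ} (hp : p ∈ E n) : Continuous p := by
  induction hp using Submodule.span_induction with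
  | mem p hp =>
    obtain ⟨k, α, -, h | h⟩ := hp
    · rw [h]; fun_prop
    · rw [h]; fun_prop
  | zero => exact continuous_const
  | add p q _ _ hp hq => exact hp.add hq
  | smul c p _ hp => exact continuous_const.mul hp

lemma one_mem : (fun _ => 1 : S n → ℂ) ∈ E n := by
  have h : (fun _ => 1 : S n → ℂ) = ∑ k : Fin n, fun u : S n =>
      conj (u.1 k) * ∏ i, u.1 i ^ (Pi.single k 1 : Fin n → ℕ) i := by
    ext u
    rw [Finset.sum_apply]
    have h1 : ∀ k : Fin n, conj (u.1 k) * ∏ i, u.1 i ^ (Pi.single k 1 : Fin n → ℕ) i =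
        ((‖u.1 k‖ ^ 2 : ℝ) : ℂ) := by
      intro k
      rw [Finset.prod_eq_single k]
      · rw [Pi.single_eq_same, pow_one, mul_comm, Complex.mul_conj, Complex.normSq_eq_norm_sq]
      · intro i _ hi
        rw [Pi.single_eq_of_ne hi, pow_zero]
      · intro h; exact absurd (Finset.mem_univ k) h
    simp only [h1]
    rw [← Complex.ofReal_sum, sum_sq, Complex.ofReal_one]
  rw [h]
  refine Submodule.sum_mem _ fun k _ => Submodule.subset_span ⟨k, Pi.single k 1, ?_, Or.inl rfl⟩
  intro h0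
  have := congrFun h0 k
  simp at this

/-- The first of the two functionals in mode `m`. -/
noncomputable def psi (i₀ : Fin n) (m : ℕ) (h : ℝ → ℂ) : ℂ :=
  ∫ u : S n, h (tt i₀ u) * (tt i₀ u : ℂ) ^ m ∂surf n

lemma key_aux (hn : 2 ≤ n) (i₀ : Fin n) (m : ℕ) (h : ℝ → ℂ) (hc : Continuous h)
    (h0 : psi i₀ m h = 0) (h1 : psi i₀ (m + 1) h = 0) (k : Fin n) :
    ∫ u : S n, h (tt i₀ u) * (tt i₀ u : ℂ) ^ m * ((‖u.1 k‖ ^ 2 : ℝ) : ℂ) ∂surf n = 0 := by
  by_cases hk : k = i₀
  · subst hk
    rw [← h1, psi]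
    congr 1
    ext u
    simp only [tt]
    ring
  · have h2 := int_sq i₀ (fun t => h t * (t : ℂ) ^ m) (by fun_prop) hk
    have h3 : ∫ u : S n, h (tt i₀ u) * (tt i₀ u : ℂ) ^ m * (tt i₀ u : ℂ) ∂surf n = 0 := by
      rw [← h1, psi]
      congr 1
      ext u
      ring
    have h4 : ∫ u : S n, h (tt i₀ u) * (tt i₀ u : ℂ) ^ m ∂surf n = 0 := h0
    rw [h3, h4, sub_zero] at h2
    rcases mul_eq_zero.1 h2 with h5 | h5
    · exfalso
      have h6 : (n : ℂ) = ((1 : ℕ) : ℂ) := by
        rw [Nat.cast_one]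
        linear_combination h5
      have h7 : n = 1 := by exact_mod_cast h6
      omega
    · exact h5

/-- **The modes of the elements of `E`.** -/
lemma key (hn : 2 ≤ n) (i₀ : Fin n) (m : ℕ) (h : ℝ → ℂ) (hc : Continuous h)
    (h0 : psi i₀ m h = 0) (h1 : psi i₀ (m + 1) h = 0) {p : S n → ℂ} (hp : p ∈ E n) :
    ∫ u : S n, h (tt i₀ u) * conj (u.1 i₀) ^ m * p u ∂surf n = 0 := by
  have hct := continuous_tt i₀
  induction hp using Submodule.span_induction with
  | mem p hp =>
    have hH : ∀ (c : Fin n → ℂ) (hc : ∀ i, ‖c i‖ = 1) (u : S n),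
        h (tt i₀ (act (diag c hc) u)) = h (tt i₀ u) := by
      intro c hc u
      simp [tt, diag_apply, hc]
    have hprod : ∀ (u : S n) (a : ℕ) (z : Fin n → ℂ), ∏ i, z i ^ (Pi.single i₀ a : Fin n → ℕ) i =
        z i₀ ^ a := by
      intro u a z
      rw [Finset.prod_eq_single i₀]
      · rw [Pi.single_eq_same]
      · intro i _ hi
        rw [Pi.single_eq_of_ne hi, pow_zero]
      · intro h; exact absurd (Finset.mem_univ i₀) h
    have hprod2 : ∀ (k : Fin n) (a : ℕ) (z : Fin n → ℂ),
        ∏ i, z i ^ (Pi.single k a : Fin n → ℕ) i = z k ^ a := by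
      intro k a z
      rw [Finset.prod_eq_single k]
      · rw [Pi.single_eq_same]
      · intro i _ hi
        rw [Pi.single_eq_of_ne hi, pow_zero]
      · intro h; exact absurd (Finset.mem_univ k) h
    have hsq : ∀ z : ℂ, z * conj z = ((‖z‖ ^ 2 : ℝ) : ℂ) := by
      intro z
      rw [Complex.mul_conj, Complex.normSq_eq_norm_sq]
    obtain ⟨k, α, hα, hp | hp⟩ := hp
    · subst hp
      by_cases hab : α = Pi.single k 1 + Pi.single i₀ m
      · rw [← key_aux hn i₀ m h hc h0 h1 k]
        congr 1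
        ext u
        rw [hab]
        simp only [Pi.add_apply, pow_add, Finset.prod_mul_distrib, hprod2, pow_one]
        rw [← hsq, tt, ← hsq]
        ring
      · have h2 := int_mono_zero (fun u => h (tt i₀ u)) hH α (Pi.single k 1 + Pi.single i₀ m) hab
        rw [← h2]
        congr 1
        ext u
        simp only [Pi.add_apply, pow_add, Finset.prod_mul_distrib, hprod2, pow_one]
        ring
    · subst hp
      by_cases hab : Pi.single k 1 = α + Pi.single i₀ m
      · have hm : m = 0 := by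
          by_contra hm
          apply hα
          have h3 := congrFun hab i₀
          rw [Pi.add_apply, Pi.single_eq_same] at h3
          have hk : k = i₀ := by
            by_contra hk
            rw [Pi.single_eq_of_ne (Ne.symm hk)] at h3
            omega
          subst hk
          funext i
          have h4 := congrFun hab i
          by_cases hi : i = k
          · subst hi
            rw [Pi.single_eq_same] at h3
            simp only [Pi.zero_apply]
            omega
          · rw [Pi.add_apply, Pi.single_eq_of_ne hi, Pi.single_eq_of_ne hi] at h4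
            simp only [Pi.zero_apply]
            omega
        subst hm
        rw [Pi.single_zero, add_zero] at hab
        rw [← key_aux hn i₀ 0 h hc h0 h1 k]
        congr 1
        ext u
        rw [← hab]
        simp only [hprod2, pow_one, pow_zero]
        rw [← hsq]
      · have h2 := int_mono_zero (fun u => h (tt i₀ u)) hH (Pi.single k 1) (α + Pi.single i₀ m) hab
        rw [← h2]
        congr 1
        ext u
        simp only [Pi.add_apply, pow_add, Finset.prod_mul_distrib, hprod2, pow_one]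
        ring
  | zero => simp
  | add p q hp hq ihp ihq =>
    have hcp := continuous_of_mem hp
    have hcq := continuous_of_mem hq
    have h2 : ∀ u : S n, h (tt i₀ u) * conj (u.1 i₀) ^ m * (p + q) u =
        h (tt i₀ u) * conj (u.1 i₀) ^ m * p u + h (tt i₀ u) * conj (u.1 i₀) ^ m * q u := by
      intro u
      rw [Pi.add_apply]
      ring
    simp only [h2]
    rw [integral_add, ihp, ihq, add_zero]
    · exact integrable_of_cont (by fun_prop)
    · exact integrable_of_cont (by fun_prop)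
  | smul c p hp ihp =>
    have h2 : ∀ u : S n, h (tt i₀ u) * conj (u.1 i₀) ^ m * (c • p) u =
        c * (h (tt i₀ u) * conj (u.1 i₀) ^ m * p u) := by
      intro u
      rw [Pi.smul_apply, smul_eq_mul]
      ring
    simp only [h2]
    rw [integral_const_mul, ihp, mul_zero]

end Pool.Agent.X297.PH
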