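import Pool.Agent.X297.PH.Null

/-!
# Herglotz measures on the sphere: unitary invariance
-/

open MeasureTheory Metric Set Filter Topology

open scoped ComplexConjugate

namespace Pool.Agent.X297.PH

variable {n : ℕ}

lemma mem_E_poly (k : Fin n) (q : MvPolynomial (Fin n) ℂ) (hq : q.coeff 0 = 0) :
    (fun u : S n => conj (u.1 k) * MvPolynomial.eval (fun i => u.1 i) q) ∈ E n := by
  have h : (fun u : S n => conj (u.1 k) * MvPolynomial.eval (fun i => u.1 i) q) =
      ∑ d ∈ q.support, q.coeff d • fun u : S n => conj (u.1 k) * ∏ i, u.1 i ^ d i := by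
    ext u
    rw [Finset.sum_apply, MvPolynomial.eval_eq', Finset.mul_sum]
    refine Finset.sum_congr rfl fun d _ => ?_
    rw [Pi.smul_apply, smul_eq_mul]
    ring
  rw [h]
  refine Submodule.sum_mem _ fun d hd => Submodule.smul_mem _ _ ?_
  refine Submodule.subset_span ⟨k, d, ?_, Or.inl rfl⟩
  intro h0
  rw [MvPolynomial.mem_support_iff] at hd
  apply hd
  have : d = 0 := DFunLike.coe_injective h0
  rw [this, hq]

lemma mem_E_poly' (k : Fin n) (q : MvPolynomial (Fin n) ℂ) (hq : q.coeff 0 = 0) :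
    (fun u : S n => u.1 k * MvPolynomial.eval (fun i => conj (u.1 i)) q) ∈ E n := by
  have h : (fun u : S n => u.1 k * MvPolynomial.eval (fun i => conj (u.1 i)) q) =
      ∑ d ∈ q.support, q.coeff d • fun u : S n => u.1 k * ∏ i, conj (u.1 i) ^ d i := by
    ext u
    rw [Finset.sum_apply, MvPolynomial.eval_eq', Finset.mul_sum]
    refine Finset.sum_congr rfl fun d _ => ?_
    rw [Pi.smul_apply, smul_eq_mul]
    ring
  rw [h]
  refine Submodule.sum_mem _ fun d hd => Submodule.smul_mem _ _ ?_
  refine Submodule.subset_span ⟨k, d, ?_, Or.inr rfl⟩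
  intro h0
  rw [MvPolynomial.mem_support_iff] at hd
  apply hd
  have : d = 0 := DFunLike.coe_injective h0
  rw [this, hq]

/-- the matrix of a linear isometry -/
noncomputable def mat (W : Cn n ≃ₗᵢ[ℂ] Cn n) (i j : Fin n) : ℂ := W (EuclideanSpace.single j 1) i

lemma apply_eq (W : Cn n ≃ₗᵢ[ℂ] Cn n) (v : Cn n) (i : Fin n) : W v i = ∑ j, mat W i j * v j := by
  have h : v = ∑ j, v j • EuclideanSpace.single j (1 : ℂ) := by
    ext i
    simp [Pi.single_apply]
  conv_lhs => rw [h]
  rw [map_sum]
  simp only [map_smul]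
  rw [WithLp.ofLp_sum, Finset.sum_apply]
  refine Finset.sum_congr rfl fun j _ => ?_
  simp only [PiLp.smul_apply, smul_eq_mul, mat]
  ring

/-- the polynomial `∏ (W u)_i ^ α_i` -/
noncomputable def polyOf (c : Fin n → Fin n → ℂ) (α : Fin n → ℕ) : MvPolynomial (Fin n) ℂ :=
  ∏ i, (∑ j, MvPolynomial.C (c i j) * MvPolynomial.X j) ^ α i

lemma polyOf_coeff (c : Fin n → Fin n → ℂ) {α : Fin n → ℕ} (hα : α ≠ 0) :
    (polyOf c α).coeff 0 = 0 := by
  rw [← MvPolynomial.constantCoeff_eq, polyOf, map_prod]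
  obtain ⟨i, hi⟩ := Function.ne_iff.1 hα
  apply Finset.prod_eq_zero (Finset.mem_univ i)
  rw [map_pow, map_sum]
  simp only [map_mul, MvPolynomial.constantCoeff_X, mul_zero, Finset.sum_const_zero]
  exact zero_pow hi

lemma eval_polyOf (c : Fin n → Fin n → ℂ) (α : Fin n → ℕ) (v : Fin n → ℂ) :
    MvPolynomial.eval v (polyOf c α) = ∏ i, (∑ j, c i j * v j) ^ α i := by
  simp [polyOf, map_prod, map_sum]

lemma E_comp (W : Cn n ≃ₗᵢ[ℂ] Cn n) {p : S n → ℂ} (hp : p ∈ E n) :
    (fun u => p (act W u)) ∈ E n := by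
  induction hp using Submodule.span_induction with
  | mem p hp =>
    obtain ⟨k, α, hα, hp | hp⟩ := hp
    · have h : (fun u => p (act W u)) = ∑ l, conj (mat W k l) • fun u : S n =>
          conj (u.1 l) * MvPolynomial.eval (fun i => u.1 i) (polyOf (mat W) α) := by
        ext u
        rw [hp, Finset.sum_apply]
        simp only [act_val, Pi.smul_apply, smul_eq_mul]
        rw [eval_polyOf, apply_eq W u.1 k, map_sum, Finset.sum_mul]
        simp only [← apply_eq W u.1]
        refine Finset.sum_congr rfl fun l _ => ?_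
        rw [map_mul]
        ring
      rw [h]
      exact Submodule.sum_mem _ fun l _ => Submodule.smul_mem _ _
        (mem_E_poly l _ (polyOf_coeff _ hα))
    · have h : (fun u => p (act W u)) = ∑ l, mat W k l • fun u : S n =>
          u.1 l * MvPolynomial.eval (fun i => conj (u.1 i))
            (polyOf (fun i j => conj (mat W i j)) α) := by
        ext u
        rw [hp, Finset.sum_apply]
        simp only [act_val, Pi.smul_apply, smul_eq_mul]
        rw [eval_polyOf, apply_eq W u.1 k, Finset.sum_mul]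
        have h2 : ∀ i, ∑ j, conj (mat W i j) * conj (u.1 j) = conj (W u.1 i) := by
          intro i
          rw [apply_eq W u.1 i, map_sum]
          simp only [map_mul]
        simp only [h2]
        refine Finset.sum_congr rfl fun l _ => ?_
        ring
      rw [h]
      exact Submodule.sum_mem _ fun l _ => Submodule.smul_mem _ _
        (mem_E_poly' l _ (polyOf_coeff _ hα))
  | zero => exact Submodule.zero_mem _
  | add p q _ _ hp hq => exact Submodule.add_mem _ hp hq
  | smul c p _ hp => exact Submodule.smul_mem _ c hp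

lemma act_symm_act (W : Cn n ≃ₗᵢ[ℂ] Cn n) (u : S n) : act W.symm (act W u) = u := by
  apply Subtype.ext
  simp

lemma IsPE.map {μ : Measure (S n)} (hμ : IsPE μ) (W : Cn n ≃ₗᵢ[ℂ] Cn n) :
    IsPE (Measure.map (act W) μ) := by
  have := hμ.prob
  refine ⟨Measure.isProbabilityMeasure_map (continuous_act W).measurable.aemeasurable, ?_⟩
  intro G ε hε
  classical
  set G' : Finset C(S n, ℂ) := G.image fun g => g.comp ⟨act W, continuous_act W⟩ with hG'
  obtain ⟨p, hp, hp2⟩ := hμ.closure G' ε hε
  refine ⟨fun u => p (act W.symm u), E_comp W.symm hp, fun g hg => ?_⟩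
  have h1 := hp2 (g.comp ⟨act W, continuous_act W⟩) (Finset.mem_image_of_mem _ hg)
  rw [integral_map (continuous_act W).measurable.aemeasurable g.continuous.aestronglyMeasurable]
  have h2 := integral_act W fun u => g u * p (act W.symm u)
  simp only [act_symm_act] at h2
  rw [← h2]
  exact h1

/-- **Every real hyperplane through the origin is null.** -/
lemma null_hyperplane (hn : 2 ≤ n) {μ : Measure (S n)} (hμ : IsPE μ) {a : Cn n} (ha : a ≠ 0) :
    μ {u | (inner ℂ a u.1).re = 0} = 0 := by
  set i₀ : Fin n := ⟨0, by omega⟩ with hi₀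
  have hna : (‖a‖ : ℂ) ≠ 0 := by
    rw [Ne, Complex.ofReal_eq_zero]
    exact norm_ne_zero_iff.2 ha
  set b₀ : Cn n := ((‖a‖ : ℂ)⁻¹) • a with hb₀
  have hb1 : ‖b₀‖ = 1 := by
    rw [hb₀, norm_smul, norm_inv, Complex.norm_real, norm_norm]
    exact inv_mul_cancel₀ (norm_ne_zero_iff.2 ha)
  have hon : Orthonormal ℂ (({i₀} : Set (Fin n)).domRestrict fun _ => b₀) := by
    constructor
    · intro i
      exact hb1
    · intro i j hij
      exact absurd (Subsingleton.elim i j) hij
  obtain ⟨b, hb⟩ := hon.exists_orthonormalBasis_extension_of_card_eq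
    (by rw [finrank_euclideanSpace])
  have hb2 : b i₀ = b₀ := hb i₀ rfl
  set W : Cn n ≃ₗᵢ[ℂ] Cn n := b.repr with hW
  have h1 := null_re hn (hμ.map W) i₀
  rw [Measure.map_apply (continuous_act W).measurable] at h1
  · refine measure_mono_null ?_ h1
    intro u hu
    change ((W u.1) i₀).re = 0
    rw [hW, b.repr_apply_apply, hb2, hb₀, inner_smul_left]
    have h2 : (inner ℂ a u.1).re = 0 := hu
    rw [map_inv₀, Complex.conj_ofReal, ← Complex.ofReal_inv, Complex.re_ofReal_mul, h2, mul_zero]
  · apply IsClosed.measurableSet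
    exact isClosed_eq (by fun_prop) continuous_const

lemma exists_normal {V : Submodule ℝ (Cn n)} (hV : V ≠ ⊤) :
    ∃ a : Cn n, a ≠ 0 ∧ ∀ v ∈ V, (inner ℂ a v).re = 0 := by
  let _ : InnerProductSpace ℝ (Cn n) := InnerProductSpace.complexToReal
  have h1 : Vᗮ ≠ ⊥ := by
    intro h
    exact hV (Submodule.orthogonal_eq_bot_iff.1 h)
  obtain ⟨a, ha, ha0⟩ := Submodule.exists_mem_ne_zero_of_ne_bot h1
  refine ⟨a, ha0, fun v hv => ?_⟩
  have h2 := Submodule.inner_left_of_mem_orthogonal hv ha
  exact h2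

lemma null_real (hn : 2 ≤ n) {μ : Measure (S n)} (hμ : IsPE μ) {V : Submodule ℝ (Cn n)}
    (hV : V ≠ ⊤) : μ {u | u.1 ∈ V} = 0 := by
  obtain ⟨a, ha, ha2⟩ := exists_normal hV
  exact measure_mono_null (fun u hu => ha2 _ hu) (null_hyperplane hn hμ ha)

end Pool.Agent.X297.PH
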